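import Mathlib
import Pool.Agent.H204R3.GP.TateG

/-!
# Tate forms with values in a representation, in coordinates
-/

set_option autoImplicit false
set_option linter.unusedSectionVars false

namespace Pool.Agent.N166.CZ

open Module Pool.Agent.H204R3.CM Pool.Agent.H204R3.SP Pool.Agent.H204R3.GP

noncomputable section

variable {Ω : Type*} [Field Ω] {V : Type*} [AddCommGroup V] [Module Ω V]
  {Γ : Type*} [Group Γ] (ρ : Representation Ω Γ V) (χ : Γ →* Ω) {ν : Type*} [Fintype ν]
  [DecidableEq ν] (S : Γ →* Matrix ν ν Ω)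

/-- The components `φ i` of a multilinear form with values in the representation `S`, twisted by
the `c`-th power of `χ`, equivariant for a subgroup of finite index. -/
def IsTateF (c : ℤ) {κ : Type} (φ : ν → MultilinearMap Ω (fun _ : κ => V) Ω) : Prop :=
  ∃ Δ : Subgroup Γ, Δ.FiniteIndex ∧ ∀ s ∈ Δ, ∀ (v : κ → V) i,
    φ i (fun k => ρ s (v k)) = χ s ^ c * ∑ j, S s i j * φ j v

/-- The endomorphisms that kill the components of all Tate forms with values in `S`. -/
def lieF : Submodule Ω (Module.End Ω V) where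
  carrier := {X | ∀ (κ : Type) (_ : Fintype κ) (_ : DecidableEq κ) (c : ℤ)
    (φ : ν → MultilinearMap Ω (fun _ : κ => V) Ω), IsTateF ρ χ S c φ → ∀ i, Kills X (φ i)}
  zero_mem' := by
    intro κ _ _ c φ _ i v
    refine Finset.sum_eq_zero fun k _ => ?_
    rw [LinearMap.zero_apply]
    exact (φ i).map_coord_zero k (Function.update_self _ _ _)
  add_mem' := by
    intro X Y hX hY κ i1 i2 c φ hφ i v
    have h1 := hX κ i1 i2 c φ hφ i v
    have h2 := hY κ i1 i2 c φ hφ i v
    have h3 := congrArg₂ (fun x y : Ω => x + y) h1 h2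
    simp only [add_zero] at h3
    rw [← h3, ← Finset.sum_add_distrib]
    refine Finset.sum_congr rfl fun k _ => ?_
    rw [LinearMap.add_apply, MultilinearMap.map_update_add]
  smul_mem' := by
    intro c X hX κ i1 i2 c' φ hφ i v
    have h1 := hX κ i1 i2 c' φ hφ i v
    rw [← mul_zero c, ← h1, Finset.mul_sum]
    refine Finset.sum_congr rfl fun k _ => ?_
    rw [LinearMap.smul_apply, MultilinearMap.map_update_smul, smul_eq_mul]

theorem lieF_bracket {X Y : Module.End Ω V} (hX : X ∈ lieF ρ χ S) (hY : Y ∈ lieF ρ χ S) :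
    X * Y - Y * X ∈ lieF ρ χ S :=
  fun κ i1 i2 c φ hφ i => kills_bracket (hX κ i1 i2 c φ hφ i) (hY κ i1 i2 c φ hφ i)

theorem chi_ne (s : Γ) : χ s ≠ 0 := by
  intro h
  have h1 : χ (s * s⁻¹) = 1 := by rw [mul_inv_cancel, map_one]
  rw [map_mul, h, zero_mul] at h1
  exact zero_ne_one h1

theorem lieF_conj (s : Γ) {X : Module.End Ω V} (hX : X ∈ lieF ρ χ S) :
    ρ s * X * ρ s⁻¹ ∈ lieF ρ χ S := by
  intro κ i1 i2 c φ hφ
  obtain ⟨Δ, hΔ, hφ⟩ := hφ
  -- the translate
  let φ' : ν → MultilinearMap Ω (fun _ : κ => V) Ω :=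
    fun i => ∑ j, S s⁻¹ i j • (φ j).compLinearMap (fun _ => ρ s)
  have hφ'v : ∀ i v, φ' i v = ∑ j, S s⁻¹ i j * φ j (fun k => ρ s (v k)) := by
    intro i v
    simp only [φ']
    rw [MultilinearMap.sum_apply]
    rfl
  have hSS : ∀ (a b : Γ) (w : ν → Ω) (i : ν), ∑ j, S a i j * ∑ l, S b j l * w l =
      ∑ l, S (a * b) i l * w l := by
    intro a b w i
    rw [map_mul]
    simp only [Matrix.mul_apply, Finset.mul_sum, Finset.sum_mul]
    rw [Finset.sum_comm]
    refine Finset.sum_congr rfl fun l _ => Finset.sum_congr rfl fun j _ => ?_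
    ring
  have hφ' : IsTateF ρ χ S c φ' := by
    refine ⟨Δ.comap (MulAut.conj s).toMonoidHom, ⟨by
      rw [Subgroup.index_comap_of_surjective _ (MulAut.conj s).surjective]
      exact hΔ.index_ne_zero⟩, fun t ht v i => ?_⟩
    have h1 : s * t * s⁻¹ ∈ Δ := by
      rw [Subgroup.mem_comap] at ht
      exact ht
    have h3 : ∀ k, ρ (s * t * s⁻¹) (ρ s (v k)) = ρ s (ρ t (v k)) := by
      intro k
      rw [map_mul, map_mul, Module.End.mul_apply, Module.End.mul_apply, rho_inv]
    have h4 : χ (s * t * s⁻¹) = χ t := by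
      rw [map_mul, map_mul, mul_right_comm, ← map_mul, mul_inv_cancel, map_one, one_mul]
    have h2 : ∀ j, φ j (fun k => ρ s (ρ t (v k))) =
        χ t ^ c * ∑ l, S (s * t * s⁻¹) j l * φ l (fun k => ρ s (v k)) := by
      intro j
      have h5 := hφ _ h1 (fun k => ρ s (v k)) j
      simp only [h3, h4] at h5
      exact h5
    rw [hφ'v]
    simp only [h2, hφ'v]
    have e1 : ∀ j, S s⁻¹ i j * (χ t ^ c * ∑ l, S (s * t * s⁻¹) j l * φ l (fun k => ρ s (v k))) =
        χ t ^ c * (S s⁻¹ i j * ∑ l, S (s * t * s⁻¹) j l * φ l (fun k => ρ s (v k))) := by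
      intro j
      ring
    rw [Finset.sum_congr rfl (fun j _ => e1 j), ← Finset.mul_sum, hSS, hSS]
    congr 2
    group
  have hX' := hX κ i1 i2 c φ' hφ'
  -- the components of `φ` in terms of those of `φ'`
  have hback : ∀ i v, φ i v = ∑ j, S s i j * φ' j (fun k => ρ s⁻¹ (v k)) := by
    intro i v
    simp only [hφ'v]
    rw [hSS, mul_inv_cancel, map_one]
    simp only [Matrix.one_apply, ite_mul, one_mul, zero_mul, Finset.sum_ite_eq, Finset.mem_univ,
      if_true]
    congr 1
    funext k
    rw [rho_inv']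
  intro i v
  have h1 : ∀ k, φ i (Function.update v k ((ρ s * X * ρ s⁻¹) (v k))) =
      ∑ j, S s i j * φ' j (Function.update (fun k => ρ s⁻¹ (v k)) k (X (ρ s⁻¹ (v k)))) := by
    intro k
    rw [hback]
    refine Finset.sum_congr rfl fun j _ => ?_
    congr 2
    funext l
    by_cases h : l = k
    · subst h
      rw [Function.update_self, Function.update_self]
      change ρ s⁻¹ (ρ s (X (ρ s⁻¹ (v l)))) = _
      rw [rho_inv]
    · rw [Function.update_of_ne h, Function.update_of_ne h]
  rw [Finset.sum_congr rfl (fun k _ => h1 k), Finset.sum_comm]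
  refine Finset.sum_eq_zero fun j _ => ?_
  rw [← Finset.mul_sum, hX' j (fun k => ρ s⁻¹ (v k)), mul_zero]

/-- The Lie algebra of the operators that kill all Tate forms, with values in `Ω` or `S`. -/
def lieG : Submodule Ω (Module.End Ω V) := lieT ρ χ ⊓ lieF ρ χ S

variable [CharZero Ω] {R : Type*} [Fintype R] [DecidableEq R] (e : Basis R Ω V) {inv : R → R}
  {jj : R → Ω} (hinv : ∀ x, inv (inv x) = x) (hne : ∀ x, inv x ≠ x)
  (hjj : ∀ x, jj (inv x) = -jj x) (hj0 : ∀ x, jj x ≠ 0)
  (ω : V →ₗ[Ω] V →ₗ[Ω] Ω) (hω : ∀ x y, ω (e x) (e y) = JJ inv jj x y)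

theorem DD_memF (inv : R → R)
    (hbal : ∀ (κ : Type) (_ : Fintype κ) (_ : DecidableEq κ) (c : ℤ)
      (φ : ν → MultilinearMap Ω (fun _ : κ => V) Ω), IsTateF ρ χ S c φ →
      ∀ (I : κ → R) (i : ν), φ i (fun k => e (I k)) ≠ 0 → ∀ y,
        (Finset.univ.filter (fun k => I k = y)).card =
          (Finset.univ.filter (fun k => I k = inv y)).card) (y : R) :
    DD e inv y ∈ lieF ρ χ S := by
  intro κ i1 i2 c φ hφ i
  refine kills_of_basis e _ _ fun I => ?_
  have h1 : ∀ k, φ i (Function.update (fun l => e (I l)) k (DD e inv y (e (I k)))) =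
      dd inv y (I k) * φ i (fun l => e (I l)) := by
    intro k
    rw [DD_basis, MultilinearMap.map_update_smul, smul_eq_mul]
    congr 2
    exact Function.update_eq_self k (fun l => e (I l))
  rw [Finset.sum_congr rfl (fun k _ => h1 k), ← Finset.sum_mul]
  by_cases h0 : φ i (fun l => e (I l)) = 0
  · rw [h0, mul_zero]
  · have h2 := hbal κ i1 i2 c φ hφ I i h0 y
    have h3 : ∑ k, (dd inv y (I k) : Ω) = 0 := by
      unfold dd
      rw [Finset.sum_sub_distrib, Finset.sum_boole, Finset.sum_boole, h2, sub_self]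
    rw [h3, zero_mul]

include hinv hne hjj hj0 hω in
/-- The components of Tate forms are linear combinations of products of Tate forms of degree
two. -/
theorem tateF_mem
    (hωρ : ∀ s u v, ω (ρ s u) (ρ s v) = χ s * ω u v)
    (hss : HasProj ρ)
    (hbal : ∀ (m : ℕ) (φ : MultilinearMap Ω (fun _ : Fin m × Fin 2 => V) Ω), IsTate ρ χ m φ →
      ∀ I : Fin m × Fin 2 → R, φ (fun k => e (I k)) ≠ 0 → ∀ y,
        (Finset.univ.filter (fun k => I k = y)).card =
          (Finset.univ.filter (fun k => I k = inv y)).card)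
    (hbalF : ∀ (κ : Type) (_ : Fintype κ) (_ : DecidableEq κ) (c : ℤ)
      (φ : ν → MultilinearMap Ω (fun _ : κ => V) Ω), IsTateF ρ χ S c φ →
      ∀ (I : κ → R) (i : ν), φ i (fun k => e (I k)) ≠ 0 → ∀ y,
        (Finset.univ.filter (fun k => I k = y)).card =
          (Finset.univ.filter (fun k => I k = inv y)).card)
    {m : ℕ} (c : ℤ) (φs : ν → MultilinearMap Ω (fun _ : Fin m × Fin 2 => V) Ω)
    (hφs : IsTateF ρ χ S c φs) (i : ν) :
    φs i ∈ Submodule.span Ω (PT ρ χ m) := by
  classical
  have hD : ∀ y, DD e inv y ∈ lieG ρ χ S := fun y =>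
    ⟨DD_mem' e ρ χ inv hbal y, DD_memF ρ χ S e inv hbalF y⟩
  have hbr : ∀ X ∈ lieG ρ χ S, ∀ Y ∈ lieG ρ χ S, X * Y - Y * X ∈ lieG ρ χ S :=
    fun X hX Y hY => ⟨lieT_bracket ρ χ hX.1 hY.1, lieF_bracket ρ χ S hX.2 hY.2⟩
  have hsp : ∀ X ∈ lieG ρ χ S, ∀ u w, ω (X u) w + ω u (X w) = 0 :=
    fun X hX u w => lieT_sp ρ χ ω hωρ hX.1 u w
  have hconj : ∀ (s : Γ) (X : Module.End Ω V), X ∈ lieG ρ χ S → ρ s * X * ρ s⁻¹ ∈ lieG ρ χ S :=
    fun s X hX => ⟨lieT_conj ρ χ s hX.1, lieF_conj ρ χ S s hX.2⟩
  have hcomm : ∀ Δ : Subgroup Γ, Δ.FiniteIndex → ∀ P : Module.End Ω V,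
      (∀ s ∈ Δ, ∀ v, P (ρ s v) = ρ s (P v)) → ∀ X ∈ lieG ρ χ S, ∀ v, X (P v) = P (X v) :=
    fun Δ hΔ P hP X hX v => lieT_comm e hinv hj0 ω hω ρ χ hωρ Δ hΔ P hP X hX.1 v
  -- the classes
  let St : Setoid R :=
    { r := fun x z => z ∈ CC e (lieG ρ χ S) ω inv x
      iseqv :=
        { refl := fun x => Or.inl rfl
          symm := fun h => CC_symm e (lieG ρ χ S) hbr hD hinv hne hjj hj0 ω hω hsp ρ hconj hss
            hcomm h
          trans := fun h h' => CC_trans e (lieG ρ χ S) hbr hD hinv hne hjj hj0 ω hω hsp h h' } }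
  let cls : R → Quotient St := Quotient.mk St
  have hcls' : ∀ x z, cls x = cls z ↔ z ∈ CC e (lieG ρ χ S) ω inv x := fun x z => Quotient.eq
  have hcls : ∀ x y, cls x = cls y → cls (inv x) = cls (inv y) := by
    intro x y h
    symm
    rw [hcls'] at h ⊢
    exact CC_inv e (lieG ρ χ S) ω hinv h
  have _ : Fintype (Quotient St) := Fintype.ofFinite _
  -- the forms of the classes are Tate forms
  have hPC : ∀ (c : Quotient St) (y : R),
      ∀ v ∈ Submodule.span Ω (e '' CC e (lieG ρ χ S) ω inv y),
      PC e cls c v = if cls y = c then v else 0 := by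
    intro c y v hv
    induction hv using Submodule.span_induction with
    | mem v hv =>
      obtain ⟨z, hz, rfl⟩ := hv
      rw [PC_basis, ← (hcls' y z).2 hz]
    | zero => rw [map_zero]; split_ifs <;> rfl
    | add a b _ _ ha hb =>
      rw [map_add, ha, hb]
      split_ifs
      · rfl
      · rw [add_zero]
    | smul c' a _ ha =>
      rw [map_smul, ha]
      split_ifs
      · rfl
      · rw [smul_zero]
  choose Δx hΔx hΔx' using fun x : R => exists_stabilizer e (lieG ρ χ S) hD hne ρ hconj
    (Submodule.span Ω (e '' CC e (lieG ρ χ S) ω inv x))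
    (UU_stable e (lieG ρ χ S) hbr hD hinv hne hjj hj0 ω hω hsp x)
  let BC : Quotient St → (V →ₗ[Ω] V →ₗ[Ω] Ω) := fun c => ω.comp (PC e cls c)
  have hBC : ∀ c, IsTate2 ρ χ (BC c) := by
    intro c
    refine ⟨⨅ x, Δx x, Subgroup.finiteIndex_iInf hΔx, fun s hs u v => ?_⟩
    have h1 : ∀ v, PC e cls c (ρ s v) = ρ s (PC e cls c v) := by
      have h2 : (PC e cls c).comp (ρ s) = (ρ s).comp (PC e cls c) := by
        refine e.ext fun y => ?_
        rw [LinearMap.comp_apply, LinearMap.comp_apply, hPC c y (ρ s (e y)) (hΔx' y s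
          ((Subgroup.mem_iInf.1 hs) y) _ (Submodule.subset_span ⟨y, Or.inl rfl, rfl⟩)), PC_basis]
        split_ifs
        · rfl
        · rw [map_zero]
      exact fun v => congrArg (fun T : Module.End Ω V => T v) h2
    change ω (PC e cls c (ρ s u)) (ρ s v) = χ s * ω (PC e cls c u) v
    rw [h1, hωρ]
  have hBC' : ∀ c x y, BC c (e x) (e y) = if cls x = c then JJ inv jj x y else 0 := by
    intro c x y
    change ω (PC e cls c (e x)) (e y) = _
    rw [PC_basis]
    split_ifs
    · rw [hω]
    · rw [map_zero, LinearMap.zero_apply]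
  -- coefficients
  let coef : MultilinearMap Ω (fun _ : Fin m × Fin 2 => V) Ω →ₗ[Ω] ((Fin m × Fin 2 → R) → Ω) :=
    { toFun := fun φ I => φ (fun k => e (I k))
      map_add' := fun _ _ => rfl
      map_smul' := fun _ _ => rfl }
  have hinj : Function.Injective coef := fun φ φ' h =>
    Basis.ext_multilinear (fun _ => e) fun I => congrFun h I
  let φ := φs i
  have hrel : ∀ b c, cls (inv b) = cls c → ∀ I : Fin m × Fin 2 → R,
      ∑ k, (JJ inv jj b (I k) * coef φ (Function.update I k c) +
        JJ inv jj c (I k) * coef φ (Function.update I k b)) = 0 := by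
    intro b c' hbc I
    have h2 : SS ω (e b) (e c') ∈ lieG ρ χ S :=
      SS_mem' e (lieG ρ χ S) hbr hD hinv hne hjj hj0 ω hω hsp ((hcls' _ _).1 hbc)
    have h3 := h2.2 (Fin m × Fin 2) inferInstance inferInstance c φs hφs i (fun k => e (I k))
    rw [← h3]
    refine Finset.sum_congr rfl fun k _ => ?_
    rw [SS_apply, hω, hω, MultilinearMap.map_update_add, MultilinearMap.map_update_smul,
      MultilinearMap.map_update_smul, smul_eq_mul, smul_eq_mul]
    have h4 : ∀ z : R, coef φ (Function.update I k z) =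
        φ (Function.update (fun k => e (I k)) k (e z)) := by
      intro z
      change φ (fun l => e (Function.update I k z l)) = _
      congr 1
      funext l
      by_cases hl : l = k
      · subst hl
        rw [Function.update_self, Function.update_self]
      · rw [Function.update_of_ne hl, Function.update_of_ne hl]
    rw [h4, h4]
  let F : (Fin m × Fin 2 → Quotient St) → ((Fin m × Fin 2 → R) → Ω) := fun t I =>
    if (fun k => cls (I k)) = t then coef φ I else 0
  have hF : coef φ = ∑ t, F t := by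
    funext I
    rw [Finset.sum_apply]
    simp only [F]
    rw [Finset.sum_ite_eq, if_pos (Finset.mem_univ _)]
  have hFt : ∀ t, F t ∈ InvG cls inv jj (Fin m × Fin 2) t := by
    intro t
    refine ⟨fun b c hbc I => ?_, fun I hI k => ?_⟩
    · have htype : ∀ (k : Fin m × Fin 2) (z : R), cls (I k) = cls z →
          (fun l => cls (Function.update I k z l)) = fun l => cls (I l) := by
        intro k z hz
        funext l
        by_cases hl : l = k
        · subst hl
          rw [Function.update_self, hz]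
        · rw [Function.update_of_ne hl]
      have h1 : ∀ k, JJ inv jj b (I k) * F t (Function.update I k c) +
          JJ inv jj c (I k) * F t (Function.update I k b) =
          if (fun k => cls (I k)) = t then JJ inv jj b (I k) * coef φ (Function.update I k c) +
            JJ inv jj c (I k) * coef φ (Function.update I k b) else 0 := by
        intro k
        have e1 : JJ inv jj b (I k) * F t (Function.update I k c) =
            if (fun k => cls (I k)) = t then JJ inv jj b (I k) *
              coef φ (Function.update I k c) else 0 := by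
          by_cases h : I k = inv b
          · have h2 := htype k c (by rw [h, hbc])
            simp only [F]
            rw [h2]
            split_ifs
            · rfl
            · rw [mul_zero]
          · have h2 : JJ inv jj b (I k) = 0 := by
              unfold JJ
              rw [if_neg h]
            rw [h2, zero_mul, zero_mul]
            split_ifs <;> rfl
        have e2 : JJ inv jj c (I k) * F t (Function.update I k b) =
            if (fun k => cls (I k)) = t then JJ inv jj c (I k) *
              coef φ (Function.update I k b) else 0 := by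
          by_cases h : I k = inv c
          · have h2 := htype k b (by rw [h, ← hcls _ _ hbc, hinv])
            simp only [F]
            rw [h2]
            split_ifs
            · rfl
            · rw [mul_zero]
          · have h2 : JJ inv jj c (I k) = 0 := by
              unfold JJ
              rw [if_neg h]
            rw [h2, zero_mul, zero_mul]
            split_ifs <;> rfl
        rw [e1, e2]
        split_ifs
        · rfl
        · rw [add_zero]
      rw [Finset.sum_congr rfl (fun k _ => h1 k)]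
      by_cases hI : (fun k => cls (I k)) = t
      · simp only [if_pos hI]
        exact hrel b c hbc I
      · simp only [if_neg hI]
        exact Finset.sum_const_zero
    · by_contra h
      apply hI
      simp only [F]
      rw [if_neg]
      rintro rfl
      exact h rfl
  have h1 : coef φ ∈ MatG cls inv jj (Fin m × Fin 2) m := by
    rw [hF]
    exact Submodule.sum_mem _ fun t _ => fftG hinv hjj hj0 hcls m (Fin m × Fin 2)
      (by simp [mul_comm]) t (hFt t)
  have h3 : MatG cls inv jj (Fin m × Fin 2) m ≤ (Submodule.span Ω (PT ρ χ m)).map coef := by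
    unfold MatG
    rw [Submodule.span_le]
    rintro _ ⟨σ, c, rfl⟩
    refine ⟨mmG σ (fun l => BC (c l)), Submodule.subset_span ⟨σ, _, fun l => hBC _, rfl⟩, ?_⟩
    funext I
    change mmG σ (fun l => BC (c l)) (fun k => e (I k)) = _
    rw [mmG_apply]
    exact Finset.prod_congr rfl fun s _ => hBC' _ _ _
  obtain ⟨φ', hφ', hφφ⟩ := h3 h1
  have h4 : φ' = φs i := hinj hφφ
  rw [← h4]
  exact hφ'

/-- In odd degrees there are no Tate forms. -/
theorem tateF_odd (hinv : ∀ x, inv (inv x) = x) (hne : ∀ x, inv x ≠ x)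
    (hbalF : ∀ (κ : Type) (_ : Fintype κ) (_ : DecidableEq κ) (c : ℤ)
      (φ : ν → MultilinearMap Ω (fun _ : κ => V) Ω), IsTateF ρ χ S c φ →
      ∀ (I : κ → R) (i : ν), φ i (fun k => e (I k)) ≠ 0 → ∀ y,
        (Finset.univ.filter (fun k => I k = y)).card =
          (Finset.univ.filter (fun k => I k = inv y)).card)
    {κ : Type} [Fintype κ] [DecidableEq κ] (hκ : Odd (Fintype.card κ)) (c : ℤ)
    (φs : ν → MultilinearMap Ω (fun _ : κ => V) Ω) (hφs : IsTateF ρ χ S c φs) (i : ν) :
    φs i = 0 := by
  refine Basis.ext_multilinear (fun _ => e) fun I => ?_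
  rw [MultilinearMap.zero_apply]
  by_contra h0
  have h1 := hbalF κ inferInstance inferInstance c φs hφs I i h0
  have h2 : Fintype.card κ = ∑ y : R, (Finset.univ.filter (fun k => I k = y)).card := by
    rw [← Finset.card_univ]
    exact Finset.card_eq_sum_card_fiberwise fun k _ => Finset.mem_univ _
  have h3 : ((∑ y : R, (Finset.univ.filter (fun k => I k = y)).card : ℕ) : ZMod 2) = 0 := by
    rw [Nat.cast_sum]
    refine Finset.sum_involution (fun y _ => inv y) (fun y _ => ?_) (fun y _ _ => hne y)
      (fun y _ => Finset.mem_univ _) (fun y _ => hinv y)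
    rw [← h1 y, ← two_mul]
    have : (2 : ZMod 2) = 0 := rfl
    rw [this, zero_mul]
  rw [← h2, ZMod.natCast_eq_zero_iff_even] at h3
  exact (Nat.not_even_iff_odd.2 hκ) h3

end

end Pool.Agent.N166.CZ
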