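import Mathlib
import Pool.Agent.H204R3.GP.Defs

/-!
# Tate classes on the products of the powers of an abelian variety with a variety: statements

`V` is the rational Tate module `V_ℓ(A)` of an abelian variety `A` over a field `K`, `ρ` the action
of the Galois group `Γ` of `K` on it, `χ` the cyclotomic character, `M` is the cohomology
`H^b(Z, ℚ_ℓ)` of a variety `Z` over `K` in some degree with the action `σ` of `Γ`. By the Kunneth
formula the cohomology of `A^n × Z` is the sum of the spaces `H^a(A^n) ⊗ M` of the alternating maps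
from `V ^ n` to `M` in `a` variables.
-/

set_option autoImplicit false

namespace Pool.Agent.N166.CZ

open Polynomial Pool.Agent.H204R3.GP

variable {k V M Γ : Type*} [Field k] [AddCommGroup V] [Module k V] [AddCommGroup M] [Module k M]
  [Group Γ]

/-- A class in `H^a(A^n) ⊗ H^b(Z)(c)`, that is an alternating map `f` from `V ^ n` to `M = H^b(Z)` in
`a` variables (indexed by `κ`), is a *Tate class* if it is fixed by a subgroup `Δ` of finite index
of the Galois group. -/
def IsTateMap (ρ : Representation k Γ V) (χ : Γ →* k) (σ : Representation k Γ M) {n : ℕ} (c : ℤ)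
    {κ : Type*} (f : (Fin n → V) [⋀^κ]→ₗ[k] M) : Prop :=
  ∃ Δ : Subgroup Γ, Δ.FiniteIndex ∧ ∀ s ∈ Δ, ∀ v : κ → Fin n → V,
    f (fun l i => ρ s (v l i)) = χ s ^ c • σ s (f v)

/-- A class `z` in `H^b(Z)(c)` is a *Tate class* if it is fixed by a subgroup of finite index. -/
def IsTateVector (χ : Γ →* k) (σ : Representation k Γ M) (c : ℤ) (z : M) : Prop :=
  ∃ Δ : Subgroup Γ, Δ.FiniteIndex ∧ ∀ s ∈ Δ, χ s ^ c • σ s z = z

/-- `g` is (a multiple by a nonzero rational number of) the product of the wedge product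
`B 0 ∧ ... ∧ B (m - 1)` with `z`. -/
def IsProduct {n m : ℕ} (B : Fin m → (Fin n → V) [⋀^Fin 2]→ₗ[k] k) (z : M)
    (g : (Fin n → V) [⋀^Fin m × Fin 2]→ₗ[k] M) : Prop :=
  ∀ v, g v = (∑ τ : Equiv.Perm (Fin m × Fin 2), ((Equiv.Perm.sign τ : ℤ) : k) *
    ∏ l, B l ![v (τ (l, 0)), v (τ (l, 1))]) • z

/-- For all `n`: all Tate classes in `H^(2m)(A^n) ⊗ H^b(Z)(c)` are linear combinations of the
products of wedge products of `m` Tate classes of degree two on `A^n` and Tate classes in
`H^b(Z)(c - m)`, and there are no Tate classes except zero in `H^(2m+1)(A^n) ⊗ H^b(Z)(c)`. -/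
def ProductsWith (ρ : Representation k Γ V) (χ : Γ →* k) (σ : Representation k Γ M) : Prop :=
  ∀ (n m : ℕ) (c : ℤ),
    (∀ f : (Fin n → V) [⋀^Fin m × Fin 2]→ₗ[k] M, IsTateMap ρ χ σ c f →
      f ∈ Submodule.span k {g | ∃ (B : Fin m → (Fin n → V) [⋀^Fin 2]→ₗ[k] k) (z : M),
        (∀ l, IsTateClass ρ χ 1 (B l)) ∧ IsTateVector χ σ (c - m) z ∧ IsProduct B z g}) ∧
    ∀ f : (Fin n → V) [⋀^Fin (2 * m + 1)]→ₗ[k] M, IsTateMap ρ χ σ c f → f = 0

end Pool.Agent.N166.CZ
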