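import Mathlib
import Pool.Agent.N166.CZ.Fam
import Pool.Agent.N166.CZ.Stm
import Pool.Agent.H204R3.GP.DescentG

/-!
# Alternating Tate maps
-/

set_option autoImplicit false
set_option linter.unusedSectionVars false

namespace Pool.Agent.N166.CZ

open Module Pool.Agent.H204R3.CM Pool.Agent.H204R3.SP Pool.Agent.H204R3.GP

noncomputable section

variable {k : Type*} [Field k] [CharZero k] {V : Type*} [AddCommGroup V] [Module k V]
  {Γ : Type*} [Group Γ] (ρ : Representation k Γ V) (χ : Γ →* k)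

/-- The component of a multilinear form on `V ^ n`. -/
def cpt {n : ℕ} {κ : Type} (f : MultilinearMap k (fun _ : κ => Fin n → V) k) (c : κ → Fin n) :
    MultilinearMap k (fun _ : κ => V) k :=
  f.compLinearMap (fun l => LinearMap.single k (fun _ : Fin n => V) (c l))

theorem sum_cpt {n : ℕ} {κ : Type} [Fintype κ] [DecidableEq κ]
    (f : MultilinearMap k (fun _ : κ => Fin n → V) k) (v : κ → Fin n → V) :
    f v = ∑ c : κ → Fin n, cpt f c (fun l => v l (c l)) := by
  have h1 : v = fun l => ∑ i, Pi.single i (v l i) := by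
    funext l
    exact (Finset.univ_sum_single (v l)).symm
  conv_lhs => rw [h1]
  exact f.map_sum (fun l i => Pi.single i (v l i))

/-- Evaluation of sums. -/
theorem alt_sum_apply {W N : Type*} [AddCommGroup W] [Module k W] [AddCommGroup N] [Module k N]
    {κ J : Type*} (s : Finset J) (g : J → W [⋀^κ]→ₗ[k] N) (v : κ → W) :
    (∑ j ∈ s, g j) v = ∑ j ∈ s, g j v :=
  map_sum ({ toFun := fun g => g v
             map_zero' := rfl
             map_add' := fun _ _ => rfl } : (W [⋀^κ]→ₗ[k] N) →+ N) g s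

/-- The wedge products of Tate classes of degree two. -/
def WT (n m : ℕ) : Set ((Fin n → V) [⋀^Fin m × Fin 2]→ₗ[k] k) :=
  {g | ∃ B : Fin m → (Fin n → V) [⋀^Fin 2]→ₗ[k] k, (∀ l, IsTateClass ρ χ 1 (B l)) ∧
    ∀ v, g v = ∑ σ : Equiv.Perm (Fin m × Fin 2), ((Equiv.Perm.sign σ : ℤ) : k) *
      ∏ l, B l ![v (σ (l, 0)), v (σ (l, 1))]}

/-- Alternating forms on `V ^ n`. -/
theorem alt_mem {n m : ℕ} (f : (Fin n → V) [⋀^Fin m × Fin 2]→ₗ[k] k)
    (hall : ∀ c, cpt f.toMultilinearMap c ∈ Submodule.span k (PT ρ χ m)) :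
    f ∈ Submodule.span k (WT ρ χ n m) := by
  classical
  let BB : Set (MultilinearMap k (fun _ : Fin 2 => Fin n → V) k) :=
    {B | ∃ Δ : Subgroup Γ, Δ.FiniteIndex ∧ ∀ s ∈ Δ, ∀ v : Fin 2 → Fin n → V,
      B (fun ε i => ρ s (v ε i)) = χ s * B v}
  have hmem : (fun v => f v) ∈ Submodule.span k {g : (Fin m × Fin 2 → Fin n → V) → k |
      ∃ (e : Equiv.Perm (Fin m × Fin 2))
        (B : Fin m → MultilinearMap k (fun _ : Fin 2 => Fin n → V) k),
        (∀ s, B s ∈ BB) ∧ g = fun v => ∏ s, B s (fun ε => v (e (s, ε)))} := by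
    have hsum : (fun v => f v) = ∑ c : Fin m × Fin 2 → Fin n,
        (fun v : Fin m × Fin 2 → Fin n → V => cpt f.toMultilinearMap c (fun l => v l (c l))) := by
      funext v
      rw [Finset.sum_apply]
      exact sum_cpt f.toMultilinearMap v
    rw [hsum]
    refine Submodule.sum_mem _ fun c _ => ?_
    have h2 := hall c
    have h3 : ∀ φ ∈ Submodule.span k (PT ρ χ m),
        (fun v : Fin m × Fin 2 → Fin n → V => φ (fun l => v l (c l))) ∈
        Submodule.span k {g : (Fin m × Fin 2 → Fin n → V) → k |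
      ∃ (e : Equiv.Perm (Fin m × Fin 2))
        (B : Fin m → MultilinearMap k (fun _ : Fin 2 => Fin n → V) k),
        (∀ s, B s ∈ BB) ∧ g = fun v => ∏ s, B s (fun ε => v (e (s, ε)))} := by
      intro φ hφ
      induction hφ using Submodule.span_induction with
      | mem φ hφ =>
        obtain ⟨σ, B, hB, rfl⟩ := hφ
        refine Submodule.subset_span ⟨σ, fun s => bil2 ((B s).compl₁₂
          (LinearMap.proj (c (σ (s, 0)))) (LinearMap.proj (c (σ (s, 1))))), fun s => ?_, ?_⟩
        · obtain ⟨Δ', hΔ', hB'⟩ := hB s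
          refine ⟨Δ', hΔ', fun t ht v => ?_⟩
          rw [bil2_apply, bil2_apply]
          exact hB' t ht _ _
        · funext v
          rw [mmG_apply]
          rfl
      | zero => exact Submodule.zero_mem _
      | add a b _ _ ha hb => exact Submodule.add_mem _ ha hb
      | smul c a _ ha => exact Submodule.smul_mem _ c ha
    exact h3 _ h2
  have h1 := alt_span BB f hmem
  refine Submodule.span_mono ?_ h1
  rintro g ⟨B, hB, hg⟩
  refine ⟨fun l => MultilinearMap.alternatization (B l), fun l => ?_, hg⟩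
  obtain ⟨Δ', hΔ', hB'⟩ := hB l
  refine ⟨Δ', hΔ', fun s hs v => ?_⟩
  rw [MultilinearMap.alternatization_apply, MultilinearMap.alternatization_apply, pow_one,
    Finset.mul_sum]
  refine Finset.sum_congr rfl fun σ _ => ?_
  rw [mul_smul_comm]
  congr 1
  exact hB' s hs (fun ε => v (σ ε))

/-- Wedge products of Tate classes are Tate classes. -/
theorem WT_tate {n m : ℕ} {g : (Fin n → V) [⋀^Fin m × Fin 2]→ₗ[k] k} (hg : g ∈ WT ρ χ n m) :
    ∃ Δ : Subgroup Γ, Δ.FiniteIndex ∧ ∀ s ∈ Δ, ∀ v : Fin m × Fin 2 → Fin n → V,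
      g (fun l i => ρ s (v l i)) = χ s ^ m * g v := by
  obtain ⟨B, hB, hg⟩ := hg
  choose Δ hΔ h using hB
  refine ⟨⨅ l, Δ l, Subgroup.finiteIndex_iInf hΔ, fun s hs v => ?_⟩
  rw [hg, hg, Finset.mul_sum]
  refine Finset.sum_congr rfl fun σ _ => ?_
  have h1 : ∀ l, B l ![fun i => ρ s (v (σ (l, 0)) i), fun i => ρ s (v (σ (l, 1)) i)] =
      χ s * B l ![v (σ (l, 0)), v (σ (l, 1))] := by
    intro l
    have h2 := h l s ((Subgroup.mem_iInf.1 hs) l) ![v (σ (l, 0)), v (σ (l, 1))]
    rw [pow_one] at h2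
    rw [← h2]
    congr 1
    funext ε
    fin_cases ε <;> rfl
  rw [Finset.prod_congr rfl (fun l _ => h1 l), Finset.prod_mul_distrib, Finset.prod_const,
    Finset.card_univ, Fintype.card_fin]
  ring

variable {M : Type*} [AddCommGroup M] [Module k M] [FiniteDimensional k M]
  (σ : Representation k Γ M)

/-- The matrices of a representation. -/
def matS {d : ℕ} (bM : Basis (Fin d) k M) : Γ →* Matrix (Fin d) (Fin d) k :=
  (LinearMap.toMatrixAlgEquiv bM : Module.End k M ≃ₐ[k] _).toAlgHom.toRingHom.toMonoidHom.comp σ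

theorem matS_apply {d : ℕ} (bM : Basis (Fin d) k M) (s : Γ) (z : M) (i : Fin d) :
    bM.repr (σ s z) i = ∑ j, matS σ bM s i j * bM.repr z j := by
  have h1 := LinearMap.toMatrix_mulVec_repr bM bM (σ s) z
  have h2 := congrFun h1 i
  rw [← h2]
  rfl

/-- The coordinates of an alternating map. -/
def crd {d : ℕ} (bM : Basis (Fin d) k M) {n : ℕ} {κ : Type} (f : (Fin n → V) [⋀^κ]→ₗ[k] M)
    (j : Fin d) : (Fin n → V) [⋀^κ]→ₗ[k] k :=
  (bM.coord j).compAlternatingMap f

theorem crd_apply {d : ℕ} (bM : Basis (Fin d) k M) {n : ℕ} {κ : Type}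
    (f : (Fin n → V) [⋀^κ]→ₗ[k] M) (j : Fin d) (v : κ → Fin n → V) :
    crd bM f j v = bM.repr (f v) j := rfl

theorem isTateF_cpt {d : ℕ} (bM : Basis (Fin d) k M) {n : ℕ} {κ : Type} {c : ℤ}
    {f : (Fin n → V) [⋀^κ]→ₗ[k] M} (hf : IsTateMap ρ χ σ c f) (t : κ → Fin n) :
    IsTateF ρ χ (matS σ bM) c (fun j => cpt (crd bM f j).toMultilinearMap t) := by
  obtain ⟨Δ, hΔ, hf⟩ := hf
  refine ⟨Δ, hΔ, fun s hs v i => ?_⟩
  have h1 := hf s hs (fun l => Pi.single (t l) (v l))
  have h2 : (fun l i => ρ s ((Pi.single (t l) (v l) : Fin n → V) i)) =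
      fun l => (Pi.single (t l) (ρ s (v l)) : Fin n → V) := by
    funext l i
    by_cases hi : i = t l
    · subst hi
      rw [Pi.single_eq_same, Pi.single_eq_same]
    · rw [Pi.single_eq_of_ne hi, Pi.single_eq_of_ne hi, map_zero]
  rw [h2] at h1
  change crd bM f i (fun l => Pi.single (t l) (ρ s (v l))) =
    χ s ^ c * ∑ j, matS σ bM s i j * crd bM f j (fun l => Pi.single (t l) (v l))
  rw [crd_apply, h1, map_smul, Finsupp.smul_apply, smul_eq_mul, matS_apply]
  rfl

/-- **The products.** -/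
theorem productsWith_of
    (h : ∀ (d : ℕ) (bM : Basis (Fin d) k M),
      (∀ (m : ℕ) (c : ℤ) (φ : Fin d → MultilinearMap k (fun _ : Fin m × Fin 2 => V) k),
        IsTateF ρ χ (matS σ bM) c φ → ∀ i, φ i ∈ Submodule.span k (PT ρ χ m)) ∧
      ∀ (κ : Type) (_ : Fintype κ) (_ : DecidableEq κ) (c : ℤ)
        (φ : Fin d → MultilinearMap k (fun _ : κ => V) k), Odd (Fintype.card κ) →
        IsTateF ρ χ (matS σ bM) c φ → ∀ i, φ i = 0) : ProductsWith ρ χ σ := by
  classical
  intro n m c
  let bM := Module.finBasis k M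
  obtain ⟨heven, hodd⟩ := h _ bM
  refine ⟨fun f hf => ?_, fun f hf => ?_⟩
  · have h1 : ∀ j, crd bM f j ∈ Submodule.span k (WT ρ χ n m) := fun j =>
      alt_mem ρ χ _ fun t => heven m c _ (isTateF_cpt ρ χ σ bM hf t) j
    obtain ⟨b, hbW, hbs, hbi⟩ := exists_linearIndependent k (WT ρ χ n m)
    have h2 : ∀ j, ∃ l : b →₀ k, crd bM f j = Finsupp.linearCombination k
        ((↑) : b → (Fin n → V) [⋀^Fin m × Fin 2]→ₗ[k] k) l := by
      intro j
      have h3 := h1 j
      rw [← hbs, ← Subtype.range_coe (s := b), Finsupp.mem_span_range_iff_exists_finsupp] at h3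
      obtain ⟨l, hl⟩ := h3
      exact ⟨l, by rw [← hl, Finsupp.linearCombination_apply]⟩
    choose l hl using h2
    let T : Finset b := Finset.univ.biUnion fun j => (l j).support
    let z : b → M := fun w => ∑ j, l j w • bM j
    have hcr : ∀ j v, crd bM f j v = ∑ w ∈ T, l j w * (w : (Fin n → V) [⋀^Fin m × Fin 2]→ₗ[k] k) v
        := by
      intro j v
      have hsub : (l j).support ⊆ T :=
        Finset.subset_biUnion_of_mem (fun j => (l j).support) (Finset.mem_univ j)
      rw [hl j, Finsupp.linearCombination_apply, Finsupp.sum_of_support_subset (l j) hsub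
        (fun w a => a • (w : (Fin n → V) [⋀^Fin m × Fin 2]→ₗ[k] k)) (fun w _ => zero_smul k _),
        alt_sum_apply]
      rfl
    have hfv : ∀ v, f v = ∑ w ∈ T, (w : (Fin n → V) [⋀^Fin m × Fin 2]→ₗ[k] k) v • z w := by
      intro v
      have h3 : f v = ∑ j, crd bM f j v • bM j := (bM.sum_repr (f v)).symm
      rw [h3]
      simp only [hcr, z, Finset.sum_smul, Finset.smul_sum]
      rw [Finset.sum_comm]
      refine Finset.sum_congr rfl fun w _ => Finset.sum_congr rfl fun j _ => ?_
      rw [smul_smul, mul_comm]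
    -- the vectors are Tate vectors
    obtain ⟨Δ, hΔ, hΔf⟩ := hf
    choose Δw hΔw hΔw' using fun w : b => WT_tate ρ χ (hbW w.2)
    have hz : ∀ w ∈ T, IsTateVector χ σ (c - m) (z w) := by
      intro w₀ hw₀
      refine ⟨Δ ⊓ ⨅ w : T, Δw w, ?_, fun s hs => ?_⟩
      · have : (⨅ w : T, Δw w).FiniteIndex := Subgroup.finiteIndex_iInf fun w => hΔw _
        infer_instance
      · let u : b → M := fun w => χ s ^ c • σ s (z w) - χ s ^ m • z w
        have h3 : ∀ v, ∑ w ∈ T, (w : (Fin n → V) [⋀^Fin m × Fin 2]→ₗ[k] k) v • u w = 0 := by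
          intro v
          have h4 := hΔf s hs.1 v
          rw [hfv, hfv, map_sum, Finset.smul_sum] at h4
          have h5 : ∀ w ∈ T, (w : (Fin n → V) [⋀^Fin m × Fin 2]→ₗ[k] k) (fun l i => ρ s (v l i)) =
              χ s ^ m * (w : (Fin n → V) [⋀^Fin m × Fin 2]→ₗ[k] k) v := fun w hw =>
            hΔw' w s ((Subgroup.mem_iInf.1 hs.2) ⟨w, hw⟩) v
          rw [← sub_eq_zero.2 h4.symm, ← Finset.sum_sub_distrib]
          refine Finset.sum_congr rfl fun w hw => ?_
          rw [h5 w hw, map_smul]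
          simp only [u]
          rw [smul_sub, smul_smul, smul_smul, smul_smul, mul_comm (χ s ^ c),
            mul_comm (χ s ^ m)]
        have h6 : u w₀ = 0 := by
          apply bM.repr.injective
          rw [map_zero]
          ext j
          rw [Finsupp.zero_apply]
          have h7 : ∑ w ∈ T, bM.repr (u w) j • (w : (Fin n → V) [⋀^Fin m × Fin 2]→ₗ[k] k) = 0 := by
            ext v
            rw [alt_sum_apply, AlternatingMap.zero_apply]
            have h8 := congrArg (fun y => bM.repr y j) (h3 v)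
            simp only [map_sum, map_zero, Finsupp.zero_apply, map_smul, Finsupp.coe_finset_sum,
              Finset.sum_apply, Finsupp.smul_apply, smul_eq_mul] at h8
            rw [← h8]
            refine Finset.sum_congr rfl fun w _ => ?_
            rw [AlternatingMap.smul_apply, smul_eq_mul, mul_comm]
          exact (linearIndependent_iff'.1 hbi T _ h7) w₀ hw₀
        have h9 : χ s ^ c • σ s (z w₀) = χ s ^ m • z w₀ := sub_eq_zero.1 h6
        rw [zpow_sub₀ (chi_ne χ s), zpow_natCast, div_eq_inv_mul, mul_smul, h9, smul_smul,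
          inv_mul_cancel₀ (pow_ne_zero _ (chi_ne χ s)), one_smul]
    -- the sum
    have hfs : f = ∑ w ∈ T, (LinearMap.toSpanSingleton k M (z w)).compAlternatingMap
        (w : (Fin n → V) [⋀^Fin m × Fin 2]→ₗ[k] k) := by
      ext v
      rw [alt_sum_apply, hfv]
      rfl
    rw [hfs]
    refine Submodule.sum_mem _ fun w hw => Submodule.subset_span ?_
    obtain ⟨B, hB, hBw⟩ := hbW w.2
    refine ⟨B, z w, hB, hz w hw, fun v => ?_⟩
    change (w : (Fin n → V) [⋀^Fin m × Fin 2]→ₗ[k] k) v • z w = _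
    rw [hBw]
  · have h1 : ∀ j, crd bM f j = 0 := by
      intro j
      ext v
      have h2 := sum_cpt (crd bM f j).toMultilinearMap v
      have h3 : ∀ t, cpt (crd bM f j).toMultilinearMap t = 0 := fun t =>
        hodd _ inferInstance inferInstance c _ (by rw [Fintype.card_fin]; exact ⟨m, rfl⟩)
          (isTateF_cpt ρ χ σ bM hf t) j
      change (crd bM f j).toMultilinearMap v = 0
      rw [h2]
      refine Finset.sum_eq_zero fun t _ => ?_
      rw [h3]
      rfl
    ext v
    apply bM.repr.injective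
    ext j
    have h2 := congrArg (fun g : (Fin n → V) [⋀^Fin (2 * m + 1)]→ₗ[k] k => g v) (h1 j)
    change bM.repr (f v) j = 0 at h2
    rw [h2]
    change 0 = bM.repr 0 j
    rw [map_zero, Finsupp.zero_apply]

end

end Pool.Agent.N166.CZ
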