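import Mathlib
import Pool.Agent.W484.BB.Lists
import Pool.Agent.W484.HS.Abs

/-!
# Balanced relations, and eigenvalues
-/

set_option autoImplicit false
set_option linter.unusedSectionVars false

namespace Pool.Agent.N166.CZ

open Module Polynomial Pool.Agent.W484.HS Pool.Agent.W484.BB

section lists

variable {X K : Type*} [Field K] {val : X → K} {inv : X → X} [DecidableEq X]

theorem balanced_list {Q ρ' : K} (hQ : Q ≠ 0) (hpair : ExactPairK val Q ρ')
    (hval : Function.Injective val) (hinv : ∀ x, inv (inv x) = x)
    (hv : ∀ x, val x * val (inv x) = Q) :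
    ∀ (n : ℕ) (c : ℤ) (s : ℕ), 0 < s → ∀ L : List X, L.length = n →
      ((L.map val).prod * ρ') ^ s = (Q ^ c) ^ s → ∀ y, L.count y = L.count (inv y) := by
  intro n
  induction n using Nat.strong_induction_on with
  | _ n ih =>
    intro c s hs L hlen hrel y
    rcases Nat.eq_zero_or_pos n with hn | hn
    · subst hn
      rw [List.length_eq_zero_iff.1 hlen, List.count_nil, List.count_nil]
    · have h3 := hpair n c s hs hn L hlen hrel
      obtain ⟨a, b, L', hperm, hgood⟩ := exists_of_not_pairwise _ L h3
      rw [not_not] at hgood
      have ha0 : val a ≠ 0 := by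
        intro h
        rw [h, zero_mul] at hgood
        exact hQ hgood.symm
      have hb : b = inv a := by
        apply hval
        apply mul_left_cancel₀ ha0
        rw [hgood, hv]
      subst hb
      have hlen' : n = L'.length + 2 := by
        have h2 := hperm.length_eq
        rw [List.length_cons, List.length_cons, hlen] at h2
        omega
      have h4 : (L.map val).prod = Q * (L'.map val).prod := by
        rw [(hperm.map val).prod_eq, List.map_cons, List.prod_cons, List.map_cons,
          List.prod_cons, ← mul_assoc, hv]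
      have h5 := ih L'.length (by omega) (c - 1) s hs L' rfl (by
        have h6 : Q ^ c = Q * Q ^ (c - 1) := by
          rw [← zpow_one_add₀ hQ]
          congr 1
          ring
        rw [h4, h6, mul_assoc, mul_pow, mul_pow Q] at hrel
        exact mul_left_cancel₀ (pow_ne_zero _ hQ) hrel) y
      rw [hperm.count_eq, hperm.count_eq, List.count_cons, List.count_cons, List.count_cons,
        List.count_cons, h5]
      have e1 : (a == y) = (inv a == inv y) := by
        rw [Bool.eq_iff_iff, beq_iff_eq, beq_iff_eq]
        constructor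
        · rintro rfl
          rfl
        · intro h
          rw [← hinv a, h, hinv]
      have e2 : (inv a == y) = (a == inv y) := by
        rw [Bool.eq_iff_iff, beq_iff_eq, beq_iff_eq]
        constructor
        · rintro rfl
          rw [hinv]
        · rintro rfl
          rw [hinv]
      rw [e1, e2]
      ring

theorem balanced_fun {Q ρ' : K} (hQ : Q ≠ 0) (hpair : ExactPairK val Q ρ')
    (hval : Function.Injective val) (hinv : ∀ x, inv (inv x) = x)
    (hv : ∀ x, val x * val (inv x) = Q) {κ : Type*} [Fintype κ] (I : κ → X) (c : ℤ) (s : ℕ)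
    (hs : 0 < s) (h : ((∏ l, val (I l)) * ρ') ^ s = (Q ^ c) ^ s) (y : X) :
    (Finset.univ.filter (fun k => I k = y)).card =
      (Finset.univ.filter (fun k => I k = inv y)).card := by
  have hcount : ∀ z : X, ((Finset.univ : Finset κ).toList.map I).count z =
      (Finset.univ.filter (fun k => I k = z)).card := by
    intro z
    rw [← Multiset.coe_count, ← Multiset.map_coe, Finset.coe_toList, Multiset.count_map,
      Finset.card_def, Finset.filter_val]
    congr 1
    refine Multiset.filter_congr fun k _ => ?_
    exact eq_comm
  rw [← hcount, ← hcount]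
  refine balanced_list hQ hpair hval hinv hv _ c s hs _ rfl ?_ y
  rw [List.map_map, Finset.prod_map_toList]
  exact h

end lists

theorem exists_eigen_root {K : Type*} [Field K] [CharZero K] {W : Type*} [AddCommGroup W]
    [Module K W] (T : Module.End K W) (P : K[X]) (hP0 : P ≠ 0) (hP : aeval T P = 0)
    (hs : P.Splits) (N : ℕ) (μ : K) (w : W) (hw0 : w ≠ 0) (hw : (T ^ N) w = μ • w) :
    ∃ ρ' : K, P.IsRoot ρ' ∧ ρ' ^ N = μ := by
  classical
  by_contra hno
  push Not at hno
  let B : K[X] := X ^ N - C μ
  have hcop : IsCoprime P B := by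
    rw [← EuclideanDomain.gcd_isUnit_iff]
    by_contra hu
    have hD : EuclideanDomain.gcd P B ∣ P := EuclideanDomain.gcd_dvd_left _ _
    have hDs := hs.of_dvd hP0 hD
    have hD0 : EuclideanDomain.gcd P B ≠ 0 := ne_zero_of_dvd_ne_zero hP0 hD
    obtain ⟨a, ha⟩ := hDs.exists_eval_eq_zero (fun h => hu (isUnit_iff_degree_eq_zero.2 h))
    have h1 : P.IsRoot a := by
      obtain ⟨E, hE⟩ := hD
      rw [IsRoot, hE, eval_mul, ha, zero_mul]
    have h2 : B.IsRoot a := by
      obtain ⟨E, hE⟩ := EuclideanDomain.gcd_dvd_right P B
      rw [IsRoot, hE, eval_mul, ha, zero_mul]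
    apply hno a h1
    rw [IsRoot] at h2
    simp only [B, eval_sub, eval_pow, eval_X, eval_C] at h2
    exact sub_eq_zero.1 h2
  obtain ⟨a, b, hab⟩ := hcop
  apply hw0
  have h1 := congrArg (fun F : K[X] => aeval T F w) hab
  simp only [map_add, map_mul, hP, mul_zero, zero_add, map_one, Module.End.one_apply] at h1
  rw [Module.End.mul_apply] at h1
  have h2 : aeval T B w = 0 := by
    simp only [B, map_sub, map_pow, aeval_X, aeval_C, LinearMap.sub_apply,
      Module.algebraMap_end_apply]
    rw [hw, sub_self]
  rw [h2, map_zero] at h1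
  exact h1.symm

end Pool.Agent.N166.CZ
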