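import Mathlib
import Pool.Agent.N166.CZ.Fam
import Pool.Agent.H204R3.GP.DescentG

/-!
# Base change and descent of Tate forms with values in a representation
-/

set_option autoImplicit false
set_option linter.unusedSectionVars false

namespace Pool.Agent.N166.CZ

open Module TensorProduct Pool.Agent.H204R3.CM Pool.Agent.H204R3.SP Pool.Agent.H204R3.GP

noncomputable section

variable {k Ω : Type*} [Field k] [Field Ω] [Algebra k Ω] {V : Type*} [AddCommGroup V] [Module k V]
  [CharZero k] [CharZero Ω] {ι : Type*} [Fintype ι] [DecidableEq ι] (b : Basis ι k V)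
  {Γ : Type*} [Group Γ] (ρ : Representation k Γ V) (χ : Γ →* k)
  {ν : Type*} [Fintype ν] [DecidableEq ν] (S : Γ →* Matrix ν ν k)

/-- The base change of a matrix representation. -/
def bcS (Ω : Type*) [Field Ω] [Algebra k Ω] : Γ →* Matrix ν ν Ω :=
  (RingHom.mapMatrix (algebraMap k Ω)).toMonoidHom.comp S

theorem bcS_apply (s : Γ) (i j : ν) : bcS S Ω s i j = algebraMap k Ω (S s i j) := rfl

theorem bcm_tateF {c : ℤ} {κ : Type} [Fintype κ] [DecidableEq κ]
    (φ : ν → MultilinearMap k (fun _ : κ => V) k) (hφ : IsTateF ρ χ S c φ) :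
    IsTateF (bcr ρ Ω) (bcc χ Ω) (bcS S Ω) c (fun i => bcm (Ω := Ω) b (φ i)) := by
  obtain ⟨Δ, hΔ, h⟩ := hφ
  refine ⟨Δ, hΔ, fun s hs v i => ?_⟩
  have h1 : (bcm (Ω := Ω) b (φ i)).compLinearMap (fun _ => bcr ρ Ω s) =
      ∑ j, (bcc χ Ω s ^ c * bcS S Ω s i j) • bcm (Ω := Ω) b (φ j) := by
    refine Basis.ext_multilinear (fun _ => b.baseChange Ω) fun I => ?_
    rw [MultilinearMap.sum_apply]
    change (bcm (Ω := Ω) b (φ i)) (fun l => bcr ρ Ω s (b.baseChange Ω (I l))) =
      ∑ j, (bcc χ Ω s ^ c * bcS S Ω s i j) * (bcm (Ω := Ω) b (φ j))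
        (fun l => b.baseChange Ω (I l))
    simp only [bcm_basis]
    have h2 : ∀ l, bcr ρ Ω s (b.baseChange Ω (I l)) = (1 : Ω) ⊗ₜ[k] ρ s (b (I l)) := by
      intro l
      rw [Basis.baseChange_apply, bcr_tmul]
    simp only [h2]
    rw [bcm_one, h s hs, map_mul, map_zpow₀, map_sum, Finset.mul_sum]
    refine Finset.sum_congr rfl fun j _ => ?_
    rw [map_mul, bcc_apply, bcS_apply, mul_assoc]
  have h2 := congrArg (fun F : MultilinearMap Ω (fun _ : κ => Ω ⊗[k] V) Ω => F v) h1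
  rw [MultilinearMap.sum_apply] at h2
  change (bcm (Ω := Ω) b (φ i)) (fun l => bcr ρ Ω s (v l)) = _ at h2
  rw [h2, Finset.mul_sum]
  refine Finset.sum_congr rfl fun j _ => ?_
  rw [MultilinearMap.smul_apply, smul_eq_mul, mul_assoc]

include b in
/-- Descent for one form. -/
theorem descent_mem [FiniteDimensional k Ω] {m : ℕ}
    (φ : MultilinearMap k (fun _ : Fin m × Fin 2 => V) k)
    (h1 : bcm (Ω := Ω) b φ ∈ Submodule.span Ω (PT (bcr ρ Ω) (bcc χ Ω) m)) :
    φ ∈ Submodule.span k (PT ρ χ m) := by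
  classical
  let w := Module.finBasis k Ω
  let res : MultilinearMap Ω (fun _ : Fin m × Fin 2 => Ω ⊗[k] V) Ω →ₗ[Ω]
      ((Fin m × Fin 2 → V) → Ω) :=
    { toFun := fun F v => F (fun l => (1 : Ω) ⊗ₜ[k] v l)
      map_add' := fun _ _ => rfl
      map_smul' := fun _ _ => rfl }
  let emb : MultilinearMap k (fun _ : Fin m × Fin 2 => V) k →ₗ[k]
      ((Fin m × Fin 2 → V) → k) :=
    { toFun := fun F v => F v
      map_add' := fun _ _ => rfl
      map_smul' := fun _ _ => rfl }
  have h2 : res (bcm (Ω := Ω) b φ) = fun v => algebraMap k Ω (φ v) := by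
    funext v
    exact bcm_one b φ v
  have h3 : (fun v => algebraMap k Ω (φ v)) ∈ Submodule.span Ω
      {g : (Fin m × Fin 2 → V) → Ω | ∃ s ∈ emb '' (PT ρ χ m),
        g = fun x => algebraMap k Ω (s x)} := by
    rw [← h2]
    have h4 : (Submodule.span Ω (PT (bcr ρ Ω) (bcc χ Ω) m)).map res ≤ Submodule.span Ω
      {g : (Fin m × Fin 2 → V) → Ω | ∃ s ∈ emb '' (PT ρ χ m),
        g = fun x => algebraMap k Ω (s x)} := by
      rw [Submodule.map_span, Submodule.span_le]
      rintro _ ⟨_, ⟨σ, B, hB, rfl⟩, rfl⟩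
      have h5 : res (mmG σ B) = ∑ g : Fin m → Fin (finrank k Ω), (∏ l, w (g l)) •
          (fun v => algebraMap k Ω (mmG σ (fun l => comp2 w (B l) (g l)) v)) := by
        funext v
        rw [Finset.sum_apply]
        change mmG σ B (fun l => (1 : Ω) ⊗ₜ[k] v l) = _
        rw [mmG_apply]
        have h6 : ∀ l, B l ((1 : Ω) ⊗ₜ[k] v (σ (l, 0))) ((1 : Ω) ⊗ₜ[k] v (σ (l, 1))) =
            ∑ i, w i * algebraMap k Ω (comp2 w (B l) i (v (σ (l, 0))) (v (σ (l, 1)))) := by
          intro l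
          conv_lhs => rw [← w.sum_repr (B l ((1 : Ω) ⊗ₜ[k] v (σ (l, 0)))
            ((1 : Ω) ⊗ₜ[k] v (σ (l, 1))))]
          refine Finset.sum_congr rfl fun i _ => ?_
          rw [comp2_apply, Algebra.smul_def, mul_comm]
        rw [Finset.prod_congr rfl (fun l _ => h6 l), Finset.prod_univ_sum, Fintype.piFinset_univ]
        refine Finset.sum_congr rfl fun g _ => ?_
        rw [Finset.prod_mul_distrib, Pi.smul_apply, smul_eq_mul, mmG_apply, map_prod]
      rw [h5]
      refine Submodule.sum_mem _ fun g _ => Submodule.smul_mem _ _ (Submodule.subset_span ?_)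
      exact ⟨_, ⟨_, ⟨σ, _, fun l => comp2_tate ρ χ w (hB l) (g l), rfl⟩, rfl⟩, rfl⟩
    exact h4 (Submodule.mem_map_of_mem h1)
  have h4 := span_descent_k _ _ h3
  rw [← Submodule.map_span] at h4
  obtain ⟨φ', hφ', hφφ⟩ := h4
  have h6 : φ' = φ := MultilinearMap.ext fun v => congrFun hφφ v
  rwa [← h6]

theorem bcm_eq_zero {κ : Type} [Fintype κ] [DecidableEq κ]
    (φ : MultilinearMap k (fun _ : κ => V) k) (h : bcm (Ω := Ω) b φ = 0) : φ = 0 := by
  ext v
  have h1 := bcm_one (Ω := Ω) b φ v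
  rw [h, MultilinearMap.zero_apply] at h1
  rw [MultilinearMap.zero_apply]
  exact (algebraMap k Ω).injective (by rw [← h1, map_zero])

end

end Pool.Agent.N166.CZ
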