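import Mathlib
import Pool.Agent.N166.CZ.Desc
import Pool.Agent.N166.CZ.Bal
import Pool.Agent.H204R3.SP.Frob
import Pool.Agent.H204R3.GP.Semi

/-!
# Tate forms with values in a representation, from one Frobenius element
-/

set_option autoImplicit false
set_option linter.unusedSectionVars false

namespace Pool.Agent.N166.CZ

open Module TensorProduct Polynomial Pool.Agent.H204R3.CM Pool.Agent.H204R3.SP
  Pool.Agent.H204R3.GP Pool.Agent.W484.HS

noncomputable section

/-- An eigenbasis of an operator whose characteristic polynomial is separable and splits. -/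
theorem exists_eigenbasis_roots {K : Type*} [Field K] {W : Type*} [AddCommGroup W] [Module K W]
    [FiniteDimensional K W] (T : Module.End K W) (hsep : T.charpoly.Separable)
    (hsplit : T.charpoly.Splits) :
    ∃ (R : Finset K) (e : Basis R K W), (∀ z : K, z ∈ R ↔ T.charpoly.IsRoot z) ∧
      ∀ x : R, T (e x) = (x : K) • e x := by
  classical
  have h0 : T.charpoly ≠ 0 := T.charpoly_monic.ne_zero
  let R := T.charpoly.roots.toFinset
  have hR : ∀ z : K, z ∈ R ↔ T.charpoly.IsRoot z := by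
    intro z
    rw [Multiset.mem_toFinset, mem_roots h0]
  have h1 : ∀ x : R, T.HasEigenvalue (x : K) := fun x => by
    rw [Module.End.hasEigenvalue_iff_isRoot_charpoly]
    exact (hR x).1 x.2
  choose v hv using fun x => (h1 x).exists_hasEigenvector
  have hli := Module.End.eigenvectors_linearIndependent' T (fun x : R => (x : K))
    Subtype.val_injective v hv
  have hcard : Fintype.card R = finrank K W := by
    rw [Fintype.card_coe, Multiset.toFinset_card_of_nodup (nodup_roots hsep),
      ← hsplit.natDegree_eq_card_roots, LinearMap.charpoly_natDegree]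
  by_cases hne : Nonempty R
  · refine ⟨R, basisOfLinearIndependentOfCardEqFinrank hli hcard, hR, fun x => ?_⟩
    rw [coe_basisOfLinearIndependentOfCardEqFinrank]
    exact (hv x).apply_eq_smul
  · have hemp : IsEmpty R := not_nonempty_iff.1 hne
    have h0 : finrank K W = 0 := by rw [← hcard, Fintype.card_eq_zero_iff]; exact hemp
    have _ : Subsingleton W := finrank_zero_iff.1 h0
    exact ⟨R, Basis.empty W, hR, fun x => hemp.elim x⟩

variable {k : Type*} [Field k] [CharZero k] {V : Type*} [AddCommGroup V]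
    [Module k V] [FiniteDimensional k V] {Γ : Type*} [Group Γ] (ρ : Representation k Γ V)
    (χ : Γ →* k) (ω : V →ₗ[k] V →ₗ[k] k) (halt : ∀ v, ω v v = 0)
    (hnd : ∀ u, (∀ v, ω v u = 0) → u = 0)
    (hωρ : ∀ s u v, ω (ρ s u) (ρ s v) = χ s * ω u v)
    (hss : ∀ Δ : Subgroup Γ, Δ.FiniteIndex → SemiUnder (ρ '' (Δ : Set Γ)))
    (γ : Γ) {K : Type*} [Field K] [CharZero K] [Algebra k K] [FiniteDimensional k K]
    (hsep : (ρ γ).charpoly.Separable) (hsplit : ((ρ γ).charpoly.map (algebraMap k K)).Splits)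
    {ν : Type*} [Fintype ν] [DecidableEq ν] (S : Γ →* Matrix ν ν k) (P : K[X]) (hP0 : P ≠ 0)
    (hPs : P.Splits) (hP : aeval (Matrix.toLin' (bcS S K γ⁻¹)) P = 0)
    (hpair1 : ExactPairK (fun z : {z : K // ((ρ γ).charpoly.map (algebraMap k K)).IsRoot z} =>
      (z : K)) (algebraMap k K (χ γ)) 1)
    (hpair : ∀ ρ' : K, P.IsRoot ρ' →
      ExactPairK (fun z : {z : K // ((ρ γ).charpoly.map (algebraMap k K)).IsRoot z} => (z : K))
        (algebraMap k K (χ γ)) ρ')

include halt hnd hωρ hss hsep hsplit hP0 hPs hP hpair1 hpair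

theorem core : (∀ (m : ℕ) (c : ℤ) (φ : ν → MultilinearMap k (fun _ : Fin m × Fin 2 => V) k),
      IsTateF ρ χ S c φ → ∀ i, φ i ∈ Submodule.span k (PT ρ χ m)) ∧
    ∀ (κ : Type) (_ : Fintype κ) (_ : DecidableEq κ) (c : ℤ)
      (φ : ν → MultilinearMap k (fun _ : κ => V) k), Odd (Fintype.card κ) →
      IsTateF ρ χ S c φ → ∀ i, φ i = 0 := by
  classical
  have hanti : ∀ u v, ω u v = -ω v u := by
    intro u v
    have h1 := halt (u + v)
    simp only [map_add, LinearMap.add_apply, halt, zero_add, add_zero] at h1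
    exact eq_neg_of_add_eq_zero_left (by rw [← h1]; ring)
  have hnd' : ∀ u, (∀ v, ω u v = 0) → u = 0 := by
    intro u hu
    apply hnd
    intro v
    rw [hanti, hu, neg_zero]
  let b := Module.finBasis k V
  have hTchar : (bcr ρ K γ).charpoly = (ρ γ).charpoly.map (algebraMap k K) := by
    change ((ρ γ).baseChange K).charpoly = _
    rw [LinearMap.charpoly_baseChange]
  obtain ⟨R, e, hR, he⟩ := exists_eigenbasis_roots (bcr ρ K γ) (by rw [hTchar]; exact hsep.map)
    (by rw [hTchar]; exact hsplit)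
  rw [hTchar] at hR
  have hantiK : ∀ u v, bcb K ω u v = -bcb K ω v u := by
    have h1 : bcb K ω = -(bcb K ω).flip := by
      refine (b.baseChange K).ext fun i => (b.baseChange K).ext fun l => ?_
      rw [LinearMap.neg_apply, LinearMap.neg_apply, LinearMap.flip_apply, Basis.baseChange_apply,
        Basis.baseChange_apply, bcb_one, bcb_one, hanti, map_neg]
    intro u v
    exact congrArg (fun F : (K ⊗[k] V) →ₗ[K] (K ⊗[k] V) →ₗ[K] K => F u v) h1
  let Q : K := algebraMap k K (χ γ)
  have hQ0 : Q ≠ 0 := by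
    intro h
    exact chi_ne χ γ ((algebraMap k K).injective (by rw [map_zero]; exact h))
  have hmul : ∀ x y : R, bcb K ω (e x) (e y) ≠ 0 → (x : K) * y = Q := by
    intro x y h0
    have h1 := bcb_inv ρ χ (Ω := K) ω hωρ γ (e x) (e y)
    rw [he, he, map_smul, map_smul, LinearMap.smul_apply, smul_eq_mul, smul_eq_mul, bcc_apply,
      ← mul_assoc] at h1
    have h2 := mul_right_cancel₀ h0 h1
    rw [mul_comm]
    exact h2
  have hex : ∀ x : R, ∃ y : R, bcb K ω (e x) (e y) ≠ 0 := by
    intro x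
    by_contra hno
    push Not at hno
    apply e.ne_zero x
    apply bcb_nondeg b ω hnd hnd'
    intro v
    rw [hantiK, neg_eq_zero]
    have h1 : bcb K ω (e x) = 0 := by
      refine e.ext fun y => ?_
      rw [hno y, LinearMap.zero_apply]
    rw [h1, LinearMap.zero_apply]
  choose inv hinvω using hex
  have hv : ∀ x : R, (x : K) * (inv x : R) = Q := fun x => hmul x _ (hinvω x)
  have hx0 : ∀ x : R, (x : K) ≠ 0 := by
    intro x h
    have := hv x
    rw [h, zero_mul] at this
    exact hQ0 this.symm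
  have huniq : ∀ x y : R, (x : K) * y = Q → y = inv x := by
    intro x y h
    apply Subtype.ext
    apply mul_left_cancel₀ (hx0 x)
    rw [h, hv]
  have hinv : ∀ x, inv (inv x) = x := by
    intro x
    symm
    apply huniq
    rw [mul_comm, hv]
  have hq : ∀ x y : R, y ≠ inv x → bcb K ω (e x) (e y) = 0 := by
    intro x y hxy
    by_contra h0
    exact hxy (huniq x y (hmul x y h0))
  have hne : ∀ x, inv x ≠ x := by
    intro x h
    apply hinvω x
    rw [h]
    have h1 := hantiK (e x) (e x)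
    have h2 : (2 : K) * bcb K ω (e x) (e x) = 0 := by linear_combination h1
    exact (mul_eq_zero.1 h2).resolve_left two_ne_zero
  let jj : R → K := fun x => bcb K ω (e x) (e (inv x))
  have hjj : ∀ x, jj (inv x) = -jj x := by
    intro x
    simp only [jj, hinv]
    exact hantiK _ _
  have hj0 : ∀ x, jj x ≠ 0 := hinvω
  have hω : ∀ x y, bcb K ω (e x) (e y) = JJ inv jj x y := by
    intro x y
    unfold JJ
    by_cases hy : y = inv x
    · rw [if_pos hy, hy]
    · rw [if_neg hy, hq x y hy]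
  -- the relations
  let val : R → K := fun x => x
  have hval : Function.Injective val := Subtype.val_injective
  have htrans : ∀ ρ' : K, ExactPairK (fun z : {z : K //
      ((ρ γ).charpoly.map (algebraMap k K)).IsRoot z} => (z : K)) Q ρ' → ExactPairK val Q ρ' := by
    intro ρ' h n c s hs hn ys hlen hrel hpw
    let f : R → {z : K // ((ρ γ).charpoly.map (algebraMap k K)).IsRoot z} :=
      fun x => ⟨x, (hR x).1 x.2⟩
    refine h n c s hs hn (ys.map f) (by rw [List.length_map, hlen]) ?_ ?_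
    · rw [List.map_map]
      exact hrel
    · rw [List.pairwise_map]
      exact hpw
  have hpow : ∀ (n : ℕ) (x : R), bcr ρ K (γ ^ n) (e x) = (x : K) ^ n • e x := by
    intro n x
    induction n with
    | zero => rw [pow_zero, pow_zero, one_smul, map_one]; rfl
    | succ n ih =>
      rw [pow_succ, map_mul, pow_succ, Module.End.mul_apply, he]
      change bcr ρ K (γ ^ n) ((x : K) • e x) = _
      rw [map_smul, ih, smul_smul, mul_comm]
  have hbal : ∀ (m : ℕ) (φ : MultilinearMap K (fun _ : Fin m × Fin 2 => K ⊗[k] V) K),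
      IsTate (bcr ρ K) (bcc χ K) m φ →
      ∀ I : Fin m × Fin 2 → R, φ (fun l => e (I l)) ≠ 0 → ∀ y,
        (Finset.univ.filter (fun l => I l = y)).card =
          (Finset.univ.filter (fun l => I l = inv y)).card := by
    rintro m φ ⟨Δ, hΔ, hφ⟩ I hI y
    obtain ⟨M, hM, -, hMΔ⟩ := Subgroup.exists_pow_mem_of_index_ne_zero hΔ.index_ne_zero γ
    have h1 := hφ (γ ^ M) hMΔ (fun l => e (I l))
    simp only [hpow] at h1
    rw [MultilinearMap.map_smul_univ, smul_eq_mul, map_pow, bcc_apply] at h1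
    have h3 := mul_right_cancel₀ hI h1
    refine balanced_fun hQ0 (htrans 1 hpair1) hval hinv hv I (m : ℤ) M hM ?_ y
    rw [mul_one, zpow_natCast]
    change (∏ l, (I l : K)) ^ M = (Q ^ m) ^ M
    rw [← Finset.prod_pow, h3, ← pow_mul, ← pow_mul, mul_comm]
  have hbalF : ∀ (κ : Type) (_ : Fintype κ) (_ : DecidableEq κ) (c : ℤ)
      (φ : ν → MultilinearMap K (fun _ : κ => K ⊗[k] V) K),
      IsTateF (bcr ρ K) (bcc χ K) (bcS S K) c φ →
      ∀ (I : κ → R) (i : ν), φ i (fun k => e (I k)) ≠ 0 → ∀ y,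
        (Finset.univ.filter (fun k => I k = y)).card =
          (Finset.univ.filter (fun k => I k = inv y)).card := by
    rintro κ _ _ c φ ⟨Δ, hΔ, hφ⟩ I i hI y
    obtain ⟨M, hM, -, hMΔ⟩ := Subgroup.exists_pow_mem_of_index_ne_zero hΔ.index_ne_zero γ
    let w : ν → K := fun i => φ i (fun l => e (I l))
    have hw0 : w ≠ 0 := fun h => hI (congrFun h i)
    have h1 : ∀ i, (∏ l, (I l : K) ^ M) * w i = (Q ^ M) ^ c * ((bcS S K (γ ^ M)).mulVec w) i := by
      intro i
      have h2 := hφ (γ ^ M) hMΔ (fun l => e (I l)) i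
      simp only [hpow] at h2
      rw [MultilinearMap.map_smul_univ, smul_eq_mul, map_pow (bcc χ K), bcc_apply] at h2
      exact h2
    let lam : K := (Q ^ M) ^ c * (∏ l, (I l : K) ^ M)⁻¹
    have hprod0 : (∏ l, (I l : K) ^ M) ≠ 0 :=
      Finset.prod_ne_zero_iff.2 fun l _ => pow_ne_zero _ (hx0 _)
    have h2 : w = lam • (bcS S K (γ ^ M)).mulVec w := by
      funext i
      rw [Pi.smul_apply, smul_eq_mul]
      have h3 := h1 i
      simp only [lam]
      rw [mul_right_comm, ← h3]
      field_simp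
    have h3 : ((Matrix.toLin' (bcS S K γ⁻¹)) ^ M) w = lam • w := by
      have h4 : (Matrix.toLin' (bcS S K γ⁻¹)) ^ M = Matrix.toLin' (bcS S K (γ ^ M)⁻¹) := by
        rw [← inv_pow, map_pow (bcS S K), Matrix.toLin'_pow]
      rw [h4, Matrix.toLin'_apply]
      conv_lhs => rw [h2]
      rw [Matrix.mulVec_smul, Matrix.mulVec_mulVec, ← map_mul, inv_mul_cancel, map_one,
        Matrix.one_mulVec]
    obtain ⟨ρ', hρ', hρM⟩ := exists_eigen_root (Matrix.toLin' (bcS S K γ⁻¹)) P hP0 hP hPs M lam w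
      hw0 h3
    refine balanced_fun hQ0 (htrans ρ' (hpair ρ' hρ')) hval hinv hv I c M hM ?_ y
    rw [mul_pow, hρM]
    change (∏ l, (I l : K)) ^ M * ((Q ^ M) ^ c * (∏ l, (I l : K) ^ M)⁻¹) = (Q ^ c) ^ M
    rw [Finset.prod_pow] at hprod0 ⊢
    rw [mul_left_comm, mul_inv_cancel₀ hprod0, mul_one, ← zpow_natCast Q M,
      ← zpow_natCast (Q ^ c) M, ← zpow_mul, ← zpow_mul, mul_comm]
  have hproj : HasProj (bcr ρ K) := by
    intro Δ hΔ U hU
    obtain ⟨P, hP1, hP2, hP3⟩ := exists_proj_baseChange (Ω := K) (ρ '' (Δ : Set Γ)) (hss Δ hΔ) U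
      (by
        rintro _ ⟨s, hs, rfl⟩ u hu
        exact hU s hs u hu)
    exact ⟨P, hP1, hP2, fun s hs v => hP3 _ ⟨s, hs, rfl⟩ v⟩
  refine ⟨fun m c φ hφ i => ?_, fun κ _ _ c φ hκ hφ i => ?_⟩
  · apply descent_mem (Ω := K) b ρ χ
    exact tateF_mem (bcr ρ K) (bcc χ K) (bcS S K) e hinv hne hjj hj0 (bcb K ω) hω
      (bcb_inv ρ χ ω hωρ) hproj hbal hbalF c _ (bcm_tateF b ρ χ S φ hφ) i
  · apply bcm_eq_zero (Ω := K) b
    exact tateF_odd (bcr ρ K) (bcc χ K) (bcS S K) e hinv hne hbalF hκ c _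
      (bcm_tateF b ρ χ S φ hφ) i

end

end Pool.Agent.N166.CZ
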