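import Mathlib
import Pool.Agent.N166.CZ.Stm
import Pool.Agent.W484.TB.Pair

/-!
# Products with almost all abelian varieties over number fields: the property
-/

set_option autoImplicit false

namespace Pool.Agent.N166.CZ

open Polynomial Pool.Agent.H204R3.GP Pool.Agent.W484.TB

/-- The properties of the rational Tate module `V_ℓ(A)` of an abelian variety: there is a
nondegenerate alternating form with `ω (s u, s v) = χ(s) ω(u, v)` (the Weil pairing of a
polarization), and the representation is semisimple over all finite extensions (Faltings). -/
def IsTateModule {k V Γ : Type*} [Field k] [AddCommGroup V] [Module k V] [Group Γ]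
    (ρ : Representation k Γ V) (χ : Γ →* k) : Prop :=
  (∃ ω : V →ₗ[k] V →ₗ[k] k, (∀ v, ω v v = 0) ∧ (∀ u, (∀ v, ω v u = 0) → u = 0) ∧
    ∀ s u v, ω (ρ s u) (ρ s v) = χ s * ω u v) ∧
  FiniteIndexSemisimple ρ

/-- The eigenvalues of `T` and all their conjugates over `ℚ` lie, up to powers, in a group generated
by the nonzero elements of the number field `E` and `r` numbers. -/
def SmallRank {k M : Type*} [Field k] [CharZero k] [AddCommGroup M] [Module k M]
    (E : IntermediateField ℚ ℂ) (r : ℕ) (T : Module.End k M) : Prop :=
  ∃ P : ℚ[X], P ≠ 0 ∧ aeval T (P.map (algebraMap ℚ k)) = 0 ∧ RankLEOver E r {z : ℂ | aeval z P = 0}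

/-- For all abelian varieties such that the characteristic polynomial of one Frobenius element `γ` is
the product of the `f i`, and all varieties `Z` such that the eigenvalues of the geometric Frobenius
element `γ⁻¹` on the cohomology `M = H^b(Z)` have rank at most `r` over `E`: the Tate classes on the
products of the powers of the abelian variety with `Z` are combinations of products of Tate classes
of degree two on the abelian variety with Tate classes on `Z`. -/
def TateProducts {I : Type} [Fintype I] (E : IntermediateField ℚ ℂ) (q r : ℕ) (f : I → ℤ[X]) :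
    Prop :=
  ∀ (k : Type) [Field k] [CharZero k] (V : Type) [AddCommGroup V] [Module k V]
    [FiniteDimensional k V] (Γ : Type) [Group Γ] (ρ : Representation k Γ V) (χ : Γ →* k),
    IsTateModule ρ χ → ∀ γ : Γ, χ γ = q → (ρ γ).charpoly = ∏ i, (f i).map (Int.castRingHom k) →
    ∀ (M : Type) [AddCommGroup M] [Module k M] [FiniteDimensional k M]
      (σ : Representation k Γ M), SmallRank E r (σ γ⁻¹) → ProductsWith ρ χ σ

end Pool.Agent.N166.CZ
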