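import Mathlib
import Pool.Agent.W484.TB.Pair

/-!
# The Weil polynomials of a good family have different roots
-/

set_option autoImplicit false
set_option linter.unusedSectionVars false

namespace Pool.Agent.N166.CZ

open Polynomial Pool.Agent.W521.Frob Pool.Agent.W521.Count Pool.Agent.W521.Bad
  Pool.Agent.W521.Descent Pool.Agent.W521.Density Pool.Agent.W484.TB

/-- The quadratic factor. -/
noncomputable def quad (q : ℕ) (t : ℂ) : ℂ[X] := X ^ 2 - C t * X + C (q : ℂ)

theorem quad_separable {q : ℕ} {t : ℂ} (ht : t ^ 2 ≠ 4 * q) : (quad q t).Separable := by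
  have h0 : (4 * (q : ℂ) - t ^ 2) ≠ 0 := fun h => ht (by linear_combination -h)
  have hd : derivative (quad q t) = C 2 * X - C t := by
    unfold quad
    simp only [derivative_add, derivative_sub, derivative_X_pow, derivative_mul, derivative_C,
      derivative_X, zero_mul, mul_one, zero_add, add_zero, Nat.cast_ofNat, Nat.add_one_sub_one,
      pow_one]
  refine ⟨C (4 * (4 * (q : ℂ) - t ^ 2)⁻¹), -(C ((4 * (q : ℂ) - t ^ 2)⁻¹) * (C 2 * X - C t)), ?_⟩
  rw [hd]
  have e : C (4 * (4 * (q : ℂ) - t ^ 2)⁻¹) * quad q t +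
      -(C ((4 * (q : ℂ) - t ^ 2)⁻¹) * (C 2 * X - C t)) * (C 2 * X - C t) =
      C ((4 * (q : ℂ) - t ^ 2)⁻¹ * (4 * (q : ℂ) - t ^ 2)) := by
    unfold quad
    have e2 : (C (2 : ℂ) : ℂ[X]) = 2 := rfl
    have e4 : (C (4 : ℂ) : ℂ[X]) = 4 := rfl
    simp only [C_mul, C_sub, C_pow, e2, e4]
    ring
  rw [e, inv_mul_cancel₀ h0, C_1]

theorem quad_coprime {q : ℕ} (hq : q ≠ 0) {t t' : ℂ} (ht : t ≠ t') :
    IsCoprime (quad q t) (quad q t') := by
  have hq' : (q : ℂ) ≠ 0 := Nat.cast_ne_zero.2 hq
  have h0 : t' - t ≠ 0 := sub_ne_zero.2 ht.symm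
  refine ⟨C ((q : ℂ)⁻¹) * (1 - C ((t' - t)⁻¹) * (X - C t)),
    C ((q : ℂ)⁻¹) * (C ((t' - t)⁻¹) * (X - C t)), ?_⟩
  have e : C ((q : ℂ)⁻¹) * (1 - C ((t' - t)⁻¹) * (X - C t)) * quad q t +
      C ((q : ℂ)⁻¹) * (C ((t' - t)⁻¹) * (X - C t)) * quad q t' =
      C ((q : ℂ)⁻¹) * (quad q t - C ((t' - t)⁻¹ * (t' - t)) * (X * (X - C t))) := by
    unfold quad
    simp only [C_mul, C_sub]
    ring
  rw [e, inv_mul_cancel₀ h0, C_1, one_mul]
  have e2 : quad q t - X * (X - C t) = C (q : ℂ) := by
    unfold quad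
    ring
  rw [e2, ← C_mul, inv_mul_cancel₀ hq', C_1]

theorem weil_factor (q : ℕ) {h : ℤ[X]} (hm : h.Monic) :
    (weil q h).map (Int.castRingHom ℂ) =
      ((h.map (Int.castRingHom ℂ)).roots.map (quad q)).prod := by
  have hsp : (h.map (Int.castRingHom ℂ)).Splits := IsAlgClosed.splits _
  have hmon : (h.map (Int.castRingHom ℂ)).Monic := hm.map _
  have hcard : h.natDegree = Multiset.card (h.map (Int.castRingHom ℂ)).roots := by
    rw [← hsp.natDegree_eq_card_roots, hm.natDegree_map]
  refine Polynomial.eq_of_infinite_eval_eq _ _ (Set.Infinite.mono (s := {z : ℂ | z ≠ 0}) ?_ ?_)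
  · intro z hz
    have hz0 : z ≠ 0 := hz
    change eval z _ = eval z _
    have h1 : z ^ 2 + q = (z + q / z) * z := by
      field_simp
    have h2 : eval z ((weil q h).map (Int.castRingHom ℂ)) = aeval z (weil q h) := by
      rw [eval_map]
      rfl
    have h3 : aeval (z + q / z) h = eval (z + q / z) (h.map (Int.castRingHom ℂ)) := by
      rw [eval_map]
      rfl
    rw [h2, aeval_weil q h z (z + q / z) h1, h3]
    conv_lhs => rw [hsp.eq_prod_roots_of_monic hmon]
    rw [eval_multiset_prod, eval_multiset_prod, Multiset.map_map, Multiset.map_map, hcard,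
      ← Multiset.prod_replicate, ← Multiset.map_const', ← Multiset.prod_map_mul]
    congr 1
    refine Multiset.map_congr rfl fun t _ => ?_
    simp only [Function.comp_apply, quad, eval_sub, eval_add, eval_mul, eval_pow, eval_X, eval_C]
    field_simp
    ring
  · have : {z : ℂ | z ≠ 0} = {0}ᶜ := rfl
    rw [this]
    exact (Set.finite_singleton (0 : ℂ)).infinite_compl

theorem separable_weil {I : Type} [Fintype I] (g : I → ℕ) (U : Set ℕ) {q : ℕ} (hq : q ≠ 0)
    (x : (Σ i, Fin (g i)) → ℤ) (hx : GoodU U g q x) :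
    (∏ i, (weil q (polys g x i)).map (Int.castRingHom ℚ)).Separable := by
  classical
  obtain ⟨hpat, hirr, hss⟩ := hx
  have hm : ∀ i, (polys g x i).Monic := fun i => mkPoly_monic (g i) _
  have hcomp : ∀ p : ℤ[X], (p.map (Int.castRingHom ℚ)).map (algebraMap ℚ ℂ) =
      p.map (Int.castRingHom ℂ) := by
    intro p
    rw [Polynomial.map_map]
    congr 1
  rw [← separable_map (algebraMap ℚ ℂ), Polynomial.map_prod]
  simp only [hcomp]
  have hnodup : ∀ i, ((polys g x i).map (Int.castRingHom ℂ)).roots.Nodup := by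
    intro i
    apply nodup_roots
    rw [← hcomp, separable_map]
    exact (hirr i).separable
  let R : I → Finset ℂ := fun i => ⟨_, hnodup i⟩
  have hR : ∀ i t, t ∈ R i ↔ aeval t (polys g x i) = 0 := by
    intro i t
    change t ∈ ((polys g x i).map (Int.castRingHom ℂ)).roots ↔ _
    rw [mem_roots ((hm i).map _).ne_zero, IsRoot, eval_map]
    rfl
  have hfac : ∀ i, (weil q (polys g x i)).map (Int.castRingHom ℂ) = ∏ t ∈ R i, quad q t := by
    intro i
    rw [weil_factor q (hm i)]
    rfl
  -- a root is not `± 2 √q`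
  have hdisc : ∀ i, ∀ t ∈ R i, t ^ 2 ≠ 4 * (q : ℂ) := by
    intro i t ht h4
    rw [hR] at ht
    have hroot : aeval t ((polys g x i).map (Int.castRingHom ℚ)) = 0 := by
      have h5 := aeval_map_algebraMap ℚ t (polys g x i)
      exact h5.trans ht
    have hmin : minpoly ℚ t = (polys g x i).map (Int.castRingHom ℚ) :=
      (minpoly.eq_of_irreducible_of_monic (hirr i) hroot ((hm i).map _)).symm
    have hdvd : (polys g x i).map (Int.castRingHom ℚ) ∣
        ((X ^ 2 - C (4 * (q : ℤ)) : ℤ[X]).map (Int.castRingHom ℚ)) := by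
      rw [← hmin]
      apply minpoly.dvd
      have e : ((X ^ 2 - C (4 * (q : ℤ)) : ℤ[X]).map (Int.castRingHom ℚ)) =
          X ^ 2 - C (4 * (q : ℚ)) := by
        rw [Polynomial.map_sub, Polynomial.map_pow, map_X, map_C]
        simp only [eq_intCast, Int.cast_mul, Int.cast_ofNat, Int.cast_natCast]
      rw [e, map_sub, map_pow, aeval_X, aeval_C, h4]
      simp
    rw [map_dvd_map (Int.castRingHom ℚ) Int.cast_injective (hm i)] at hdvd
    obtain ⟨c, hc⟩ := hdvd
    have hmon2 : (X ^ 2 - C (4 * (q : ℤ)) : ℤ[X]).Monic := monic_X_pow_sub_C _ two_ne_zero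
    have hcm : c.Monic := by
      have := hmon2
      rw [hc] at this
      exact (hm i).of_mul_monic_left this
    have hdeg : (polys g x i).natDegree + c.natDegree = 2 := by
      rw [← (hm i).natDegree_mul hcm, ← hc, natDegree_X_pow_sub_C]
    have hcoef : ∀ n, (X ^ 2 - C (4 * (q : ℤ)) : ℤ[X]).coeff n =
        if n = 2 then 1 else if n = 0 then -(4 * (q : ℤ)) else 0 := by
      intro n
      rw [coeff_sub, coeff_X_pow, coeff_C]
      split_ifs <;> simp_all
    have hpos : 0 < (polys g x i).natDegree := by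
      have h5 := (hirr i).natDegree_pos
      rwa [(hm i).natDegree_map] at h5
    apply hss i
    rcases Nat.lt_or_ge (polys g x i).natDegree 2 with hlt | hge
    · have h1 : (polys g x i).natDegree = 1 := by omega
      have hc1 : c.natDegree = 1 := by omega
      have e1 : polys g x i = X + C ((polys g x i).coeff 0) := by
        have := (hm i).eq_X_add_C h1
        exact this
      have e2 : c = X + C (c.coeff 0) := hcm.eq_X_add_C hc1
      have e3 : (polys g x i).nextCoeff = (polys g x i).coeff 0 := by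
        rw [nextCoeff, if_neg (by omega), h1]
      rw [e3]
      set a := (polys g x i).coeff 0 with ha
      set b := c.coeff 0 with hb
      rw [e1, e2] at hc
      have e4 : ((X + C a) * (X + C b) : ℤ[X]) = X ^ 2 + C (a + b) * X + C (a * b) := by
        rw [C_add, C_mul]
        ring
      rw [e4] at hc
      have e5 := congrArg (fun p : ℤ[X] => p.coeff 1) hc
      have e6 := congrArg (fun p : ℤ[X] => p.coeff 0) hc
      simp only [hcoef, coeff_add, coeff_X_pow, coeff_C_mul, coeff_X, coeff_C] at e5 e6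
      norm_num at e5 e6
      have e7 : b = -a := by linarith
      rw [e7] at e6
      refine ⟨4, ?_⟩
      nlinarith
    · have hc0 : c.natDegree = 0 := by omega
      have hc1 : c = 1 := eq_one_of_monic_natDegree_zero hcm hc0
      rw [hc1, mul_one] at hc
      rw [← hc, nextCoeff, if_neg (by rw [natDegree_X_pow_sub_C]; exact two_ne_zero),
        natDegree_X_pow_sub_C, hcoef]
      simp
  -- different indices have different roots
  have hdisj : ∀ i j, i ≠ j → ∀ t ∈ R i, t ∉ R j := by
    intro i j hij t hti htj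
    rw [hR] at hti htj
    have key : ∀ i, aeval t (polys g x i) = 0 →
        minpoly ℚ t = (polys g x i).map (Int.castRingHom ℚ) := by
      intro i hi
      refine (minpoly.eq_of_irreducible_of_monic (hirr i) ?_ ((hm i).map _)).symm
      have h5 := aeval_map_algebraMap ℚ t (polys g x i)
      exact h5.trans hi
    have heq : polys g x i = polys g x j := by
      apply Polynomial.map_injective (Int.castRingHom ℚ) Int.cast_injective
      rw [← key i hti, ← key j htj]
    obtain ⟨l, hl, -, -, -, T, t₀, ht₀, hns, hT, hsq⟩ := hpat i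
    have : Fact l.Prime := ⟨hl⟩
    have h1 := hT i
    rw [heq, hT j] at h1
    have h2 : t₀ ∈ T j := by
      have h3 : (∏ t ∈ T j, (X - C t) : (ZMod l)[X]).IsRoot t₀ := by
        rw [h1, IsRoot, eval_prod]
        exact Finset.prod_eq_zero ht₀ (by simp)
      rw [IsRoot, eval_prod, Finset.prod_eq_zero_iff] at h3
      obtain ⟨t', ht', h4⟩ := h3
      rw [eval_sub, eval_X, eval_C, sub_eq_zero] at h4
      rw [h4]
      exact ht'
    exact hns (hsq j t₀ h2 (fun h => hij h.1.symm)).1
  have hsig : ∏ i, (weil q (polys g x i)).map (Int.castRingHom ℂ) =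
      ∏ y ∈ Finset.univ.sigma R, quad q y.2 := by
    rw [Finset.prod_sigma]
    exact Finset.prod_congr rfl fun i _ => hfac i
  rw [hsig]
  refine separable_prod' ?_ ?_
  · rintro ⟨i, t⟩ hy ⟨j, t'⟩ hy' hne
    rw [Finset.mem_sigma] at hy hy'
    refine quad_coprime hq fun h => hne ?_
    simp only at h
    subst h
    by_cases hij : i = j
    · subst hij
      rfl
    · exact absurd hy'.2 (hdisj i j hij t hy.2)
  · rintro ⟨i, t⟩ hy
    rw [Finset.mem_sigma] at hy
    exact quad_separable (hdisc i t hy.2)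

end Pool.Agent.N166.CZ
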