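import Mathlib
import Pool.Agent.N166.CZ.Def
import Pool.Agent.N166.CZ.Core
import Pool.Agent.N166.CZ.Alt
import Pool.Agent.N166.CZ.Sep
import Pool.Agent.W484.CH.Fin

/-!
# Products with almost all abelian varieties over number fields
-/

set_option autoImplicit false

namespace Pool.Agent.N166.CZ

open Module Polynomial Pool.Agent.H204R3.GP Pool.Agent.H204R3.SP Pool.Agent.W484.TB
  Pool.Agent.W484.HS Pool.Agent.W521.Frob Pool.Agent.W521.Count Pool.Agent.W521.Bad
  Pool.Agent.W521.Descent Pool.Agent.W521.Density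

theorem exactPairK_transfer {X Y K : Type*} [Field K] {val : X → K} {val' : Y → K} {Q Q' ρ : K}
    (h : ExactPairK val Q ρ) (f : Y → X) (hf : ∀ y, val (f y) = val' y) (hQ : Q = Q') :
    ExactPairK val' Q' ρ := by
  subst hQ
  intro n c s hs hn ys hlen hrel hpw
  refine h n c s hs hn (ys.map f) (by rw [List.length_map, hlen]) ?_ ?_
  · rw [List.map_map, ← hrel]
    congr 3
    refine List.map_congr_left fun y _ => hf y
  · rw [List.pairwise_map]
    simp only [hf]
    exact hpw

/-- Powers of a matrix after an extension of the field. -/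
theorem aeval_bcS {k K Γ : Type*} [Field k] [CharZero k] [Field K] [CharZero K] [Algebra k K]
    [Group Γ] {M : Type*} [AddCommGroup M] [Module k M] (σ : Representation k Γ M) {d : ℕ}
    (bM : Basis (Fin d) k M) (s : Γ) (P : ℚ[X]) (hP : aeval (σ s) (P.map (algebraMap ℚ k)) = 0) :
    aeval (Matrix.toLin' (bcS (matS σ bM) K s)) (P.map (algebraMap ℚ K)) = 0 := by
  have h1 : aeval (matS σ bM s) (P.map (algebraMap ℚ k)) = 0 := by
    have h2 := Polynomial.aeval_algHom_apply
      (LinearMap.toMatrixAlgEquiv bM : Module.End k M ≃ₐ[k] _).toAlgHom (σ s)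
      (P.map (algebraMap ℚ k))
    rw [hP, map_zero] at h2
    exact h2
  have h3 : aeval (bcS (matS σ bM) K s) (P.map (algebraMap ℚ K)) = 0 := by
    have h4 := congrArg (RingHom.mapMatrix (algebraMap k K)) h1
    rw [map_zero, aeval_def, Polynomial.hom_eval₂] at h4
    have h5 : P.map (algebraMap ℚ K) = (P.map (algebraMap ℚ k)).map (algebraMap k K) := by
      rw [Polynomial.map_map]
      congr 1
      exact (RingHom.ext_rat _ _)
    rw [h5, aeval_def, eval₂_map]
    rw [← h4]
    congr 1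
    ext x i j
    change algebraMap K (Matrix (Fin d) (Fin d) K) (algebraMap k K x) i j =
      algebraMap k K ((algebraMap k (Matrix (Fin d) (Fin d) k) x) i j)
    rw [Matrix.algebraMap_matrix_apply, Matrix.algebraMap_matrix_apply]
    split_ifs
    · rfl
    · rw [map_zero]
  have h6 := Polynomial.aeval_algHom_apply
    (Matrix.toLinAlgEquiv' : Matrix (Fin d) (Fin d) K ≃ₐ[K] _).toAlgHom
    (bcS (matS σ bM) K s) (P.map (algebraMap ℚ K))
  rw [h3, map_zero] at h6
  exact h6

theorem tateProducts_of_good {I : Type} [Fintype I] (g : I → ℕ) (E : IntermediateField ℚ ℂ)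
    [FiniteDimensional ℚ E] {q : ℕ} (hq : q ≠ 0) (r : ℕ) (hr : ∀ i, r < g i)
    (x : (Σ i, Fin (g i)) → ℤ) (hx : GoodU (splitPrimes E) g q x) :
    TateProducts E q r (fun i => weil q (polys g x i)) := by
  classical
  intro k _ _ V _ _ _ Γ _ ρ χ hV γ hχ hγ M _ _ _ σ hσ
  obtain ⟨⟨ω, halt, hnd, hω⟩, hss⟩ := hV
  obtain ⟨P, hP0, hP, hrank⟩ := hσ
  have hss' : ∀ Δ : Subgroup Γ, Δ.FiniteIndex → SemiUnder (ρ '' (Δ : Set Γ)) := by
    intro Δ hΔ U hU
    obtain ⟨U', h1, h2⟩ := hss Δ hΔ U (fun s hs u hu => hU _ ⟨s, hs, rfl⟩ u hu)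
    refine ⟨U', ?_, h2⟩
    rintro _ ⟨s, hs, rfl⟩ u hu
    exact h1 s hs u hu
  -- the field
  let F : k[X] := (ρ γ).charpoly * P.map (algebraMap ℚ k)
  let K := SplittingField F
  have hinj : Function.Injective (algebraMap k K) := (algebraMap k K).injective
  have : CharZero K := charZero_of_injective_algebraMap hinj
  have hPk0 : P.map (algebraMap ℚ k) ≠ 0 := by
    rw [Ne, Polynomial.map_eq_zero]
    exact hP0
  have hC0 : (ρ γ).charpoly ≠ 0 := (ρ γ).charpoly_monic.ne_zero
  have hFs : (F.map (algebraMap k K)).Splits := SplittingField.splits F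
  rw [Polynomial.map_mul] at hFs
  have hCK0 : (ρ γ).charpoly.map (algebraMap k K) ≠ 0 := by
    rw [Ne, Polynomial.map_eq_zero]
    exact hC0
  have hPK : (P.map (algebraMap ℚ k)).map (algebraMap k K) = P.map (algebraMap ℚ K) := by
    rw [Polynomial.map_map]
    congr 1
  have hPK0 : P.map (algebraMap ℚ K) ≠ 0 := by
    rw [Ne, Polynomial.map_eq_zero]
    exact hP0
  rw [hPK] at hFs
  have hsp1 : ((ρ γ).charpoly.map (algebraMap k K)).Splits :=
    hFs.of_dvd (mul_ne_zero hCK0 hPK0) (dvd_mul_right _ _)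
  have hsp2 : (P.map (algebraMap ℚ K)).Splits :=
    hFs.of_dvd (mul_ne_zero hCK0 hPK0) (dvd_mul_left _ _)
  have hsep : (ρ γ).charpoly.Separable := by
    rw [hγ]
    have h1 := (separable_weil g (splitPrimes E) hq x hx).map (f := algebraMap ℚ k)
    rw [Polynomial.map_prod] at h1
    have h2 : ∀ i, ((weil q (polys g x i)).map (Int.castRingHom ℚ)).map (algebraMap ℚ k) =
        (weil q (polys g x i)).map (Int.castRingHom k) := by
      intro i
      rw [Polynomial.map_map]
      congr 1
      exact RingHom.ext_int _ _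
    simpa only [h2] using h1
  have hroot : ∀ z : {z : K // ((ρ γ).charpoly.map (algebraMap k K)).IsRoot z},
      ∃ i, aeval (z : K) (weil q (polys g x i)) = 0 := by
    rintro ⟨z, hz⟩
    rw [hγ, Polynomial.map_prod, IsRoot, eval_prod, Finset.prod_eq_zero_iff] at hz
    obtain ⟨i, -, hi⟩ := hz
    refine ⟨i, ?_⟩
    rw [Polynomial.map_map, eval_map] at hi
    rw [RingHom.ext_int ((algebraMap k K).comp (Int.castRingHom k)) (algebraMap ℤ K)] at hi
    exact hi
  have hpair : ∀ (P' : ℚ[X]), P' ≠ 0 → RankLEOver E r {z : ℂ | aeval z P' = 0} →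
      ∀ ρ' : K, aeval ρ' P' = 0 → ExactPairK
        (fun z : {z : K // ((ρ γ).charpoly.map (algebraMap k K)).IsRoot z} => (z : K))
        (algebraMap k K (χ γ)) ρ' := by
    intro P' hP' hr' ρ' hρ'
    refine exactPairK_transfer (exactPair_field_over g E hq r hr x hx 1 one_pos P' hP' hr' ρ' hρ')
      (fun z => ⟨z, hroot z⟩) (fun z => pow_one _) ?_
    rw [hχ, pow_one, map_natCast]
  refine productsWith_of ρ χ σ fun d bM => ?_
  refine core ρ χ ω halt hnd hω hss' γ (K := K) hsep hsp1 (matS σ bM) (P.map (algebraMap ℚ K))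
    hPK0 hsp2 (aeval_bcS σ bM _ P hP) ?_ ?_
  · refine hpair (X - 1) ?_ (Pool.Agent.W484.CH.rank_one E r) 1
      (by rw [map_sub, aeval_X, map_one, sub_self])
    exact X_sub_C_ne_zero 1
  · intro ρ' hρ'
    refine hpair P hP0 hrank ρ' ?_
    rw [IsRoot, eval_map] at hρ'
    exact hρ'

end Pool.Agent.N166.CZ
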